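import Pool.Agent.J6H92.LPr.Main
import Pool.Agent.H38R2.CG.PV
import Pool.Agent.H256R2.SC.G3

/-!
# The cosets of the subgroups of index at most `d ^ (1 / 2 - ε)` of the group of the units modulo `d` are spread
-/

set_option autoImplicit false
set_option maxHeartbeats 4000000

namespace Pool.Agent.J6H92.LPr

open Finset Filter

open scoped Classical

/-- sums of a nonprincipal character over an arithmetic progression -/
lemma ap_sum (d : ℕ) (hd : 2 ≤ d) (χ : DirichletCharacter ℂ d) (hχ : χ ≠ 1) (m : ℕ) (hm : Nat.Coprime m d) (r L : ℕ) :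
    ‖∑ l ∈ range L, χ ((r + m * l : ℕ) : ZMod d)‖ ≤ 8 * √(d : ℝ) * (1 + Real.log d) := by
  haveI : NeZero d := ⟨by omega⟩
  obtain ⟨a, ha⟩ : ∃ a : ℕ, a = ((r : ZMod d) * ((m : ZMod d))⁻¹).val + d := ⟨_, rfl⟩
  have ha1 : 1 ≤ a := by omega
  have haz : (m : ZMod d) * (a : ZMod d) = r := by
    have h1 : (a : ZMod d) = (r : ZMod d) * ((m : ZMod d))⁻¹ := by
      rw [ha]
      push_cast
      rw [ZMod.natCast_self, add_zero, ZMod.natCast_zmod_val]
    rw [h1]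
    have h2 : (m : ZMod d) * (m : ZMod d)⁻¹ = 1 := ZMod.coe_mul_inv_eq_one m hm
    calc (m : ZMod d) * ((r : ZMod d) * ((m : ZMod d))⁻¹) = r * ((m : ZMod d) * (m : ZMod d)⁻¹) := by ring
      _ = r := by rw [h2, mul_one]
  have h1 : ∀ l ∈ range L, χ ((r + m * l : ℕ) : ZMod d) = χ (m : ZMod d) * χ ((a + l : ℕ) : ZMod d) := by
    intro l _
    rw [← map_mul]
    congr 1
    push_cast
    rw [mul_add, haz]
  rw [sum_congr rfl h1, ← mul_sum, norm_mul]
  have h2 : ∑ l ∈ range L, χ ((a + l : ℕ) : ZMod d) =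
      ∑ n ∈ Icc 1 (a + L - 1), χ (n : ZMod d) - ∑ n ∈ Icc 1 (a - 1), χ (n : ZMod d) := by
    have e1 : Icc 1 (a + L - 1) = Ico 1 (a + L) := by
      ext n
      rw [mem_Icc, mem_Ico]
      omega
    have e2 : Icc 1 (a - 1) = Ico 1 a := by
      ext n
      rw [mem_Icc, mem_Ico]
      omega
    rw [e1, e2, ← Finset.sum_Ico_consecutive (fun n : ℕ => χ (n : ZMod d)) ha1 (Nat.le_add_right a L), add_sub_cancel_left,
      Finset.sum_Ico_eq_sum_range, Nat.add_sub_cancel_left]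
  have h3 := Pool.Agent.H38R2.CG.PVh.sum_le d χ hd hχ (a + L - 1)
  have h4 := Pool.Agent.H38R2.CG.PVh.sum_le d χ hd hχ (a - 1)
  have h5 : ‖∑ l ∈ range L, χ ((a + l : ℕ) : ZMod d)‖ ≤ 8 * √(d : ℝ) * (1 + Real.log d) := by
    rw [h2]
    refine (norm_sub_le _ _).trans ?_
    linarith
  have h6 : ‖χ (m : ZMod d)‖ ≤ 1 := DirichletCharacter.norm_le_one χ _
  calc ‖χ (m : ZMod d)‖ * ‖∑ l ∈ range L, χ ((a + l : ℕ) : ZMod d)‖ ≤ 1 * (8 * √(d : ℝ) * (1 + Real.log d)) :=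
        mul_le_mul h6 h5 (norm_nonneg _) zero_le_one
    _ = _ := one_mul _

/-- the numbers of an interval in a residue class modulo `m` form a progression -/
lemma prog (M N m : ℕ) (hm : 0 < m) (r : ℤ) : ∃ r₀ L : ℕ, ∀ f : ℕ → ℂ,
    ∑ n ∈ (Ico M (M + N)).filter (fun n : ℕ => (m : ℤ) ∣ (n : ℤ) - r), f n = ∑ l ∈ range L, f (r₀ + m * l) := by
  obtain ⟨t, ht⟩ : ∃ t : ℕ, t = ((r - M) % m).toNat := ⟨_, rfl⟩
  have hm0 : (0 : ℤ) < m := by exact_mod_cast hm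
  have htz : (t : ℤ) = (r - M) % m := by rw [ht, Int.toNat_of_nonneg (Int.emod_nonneg _ hm0.ne')]
  have htm : t < m := by
    have := Int.emod_lt_of_pos (r - M) hm0
    rw [← htz] at this
    exact_mod_cast this
  have hdiv : ∀ n : ℕ, (m : ℤ) ∣ ((M + n : ℕ) : ℤ) - r ↔ n % m = t := by
    intro n
    have e1 : ((M + n : ℕ) : ℤ) - r = (n : ℤ) - (r - M) := by
      push_cast
      ring
    rw [e1, ← Int.modEq_iff_dvd, Int.ModEq, ← htz]
    constructor
    · intro h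
      have : (t : ℤ) = ((n % m : ℕ) : ℤ) := by rw [h, Int.natCast_mod]
      exact_mod_cast this.symm
    · intro h
      rw [← h, Int.natCast_mod]
  refine ⟨M + t, (N - t + m - 1) / m, fun f => ?_⟩
  refine sum_nbij' (fun n => (n - M) / m) (fun l => M + t + m * l) ?_ ?_ ?_ ?_ ?_
  · intro n hn
    rw [mem_filter, mem_Ico] at hn
    obtain ⟨n', rfl⟩ : ∃ n', n = M + n' := ⟨n - M, by omega⟩
    rw [hdiv] at hn
    rw [mem_range, Nat.lt_div_iff_mul_lt hm, Nat.add_sub_cancel_left]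
    have h1 := Nat.div_add_mod n' m
    rw [hn.2] at h1
    have h2 : n' / m * m = m * (n' / m) := Nat.mul_comm _ _
    show n' / m * m < N - t + m - 1 - (m - 1)
    omega
  · intro l hl
    rw [mem_range, Nat.lt_div_iff_mul_lt hm] at hl
    have h2 : l * m = m * l := Nat.mul_comm _ _
    have h3 : l * m < N - t + m - 1 - (m - 1) := hl
    rw [mem_filter, mem_Ico]
    refine ⟨⟨by omega, by omega⟩, ?_⟩
    have e2 : M + t + m * l = M + (t + m * l) := by ring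
    rw [e2, hdiv, Nat.add_mul_mod_self_left, Nat.mod_eq_of_lt htm]
  · intro n hn
    rw [mem_filter, mem_Ico] at hn
    obtain ⟨n', rfl⟩ : ∃ n', n = M + n' := ⟨n - M, by omega⟩
    rw [hdiv] at hn
    have h1 := Nat.div_add_mod n' m
    rw [hn.2] at h1
    show M + t + m * ((M + n' - M) / m) = M + n'
    rw [Nat.add_sub_cancel_left]
    omega
  · intro l _
    show (M + t + m * l - M) / m = l
    have e2 : M + t + m * l - M = t + m * l := by omega
    rw [e2, Nat.add_mul_div_left _ _ hm, Nat.div_eq_of_lt htm, zero_add]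
  · intro n hn
    rw [mem_filter, mem_Ico] at hn
    obtain ⟨n', rfl⟩ : ∃ n', n = M + n' := ⟨n - M, by omega⟩
    rw [hdiv] at hn
    have h1 := Nat.div_add_mod n' m
    rw [hn.2] at h1
    congr 1
    rw [Nat.add_sub_cancel_left]
    omega

/-- sums over the units -/
lemma units_sum (d : ℕ) [NeZero d] (M N : ℕ) (hMN : M + N ≤ d) (m : ℕ) (r : ℤ) (χ : DirichletCharacter ℂ d) :
    ∑ u ∈ (univ : Finset ((ZMod d)ˣ)).filter (fun u : (ZMod d)ˣ => (u : ZMod d).val ∈ Ico M (M + N) ∧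
      (m : ℤ) ∣ ((u : ZMod d).val : ℤ) - r), χ (u : ZMod d) =
      ∑ n ∈ (Ico M (M + N)).filter (fun n : ℕ => (m : ℤ) ∣ (n : ℤ) - r), χ (n : ZMod d) := by
  refine sum_bij_ne_zero (fun u _ _ => (u : ZMod d).val) ?_ ?_ ?_ ?_
  · intro u hu _
    rw [mem_filter]
    exact (mem_filter.1 hu).2
  · intro u _ _ v _ _ huv
    exact Units.ext (ZMod.val_injective d huv)
  · intro n hn hne
    rw [mem_filter, mem_Ico] at hn
    have hnd : n < d := by omega
    have hu : IsUnit (n : ZMod d) := by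
      by_contra h
      exact hne (MulChar.map_nonunit χ h)
    have h1 : ((hu.unit : (ZMod d)ˣ) : ZMod d) = (n : ZMod d) := rfl
    have h2 : ((hu.unit : (ZMod d)ˣ) : ZMod d).val = n := by rw [h1, ZMod.val_natCast_of_lt hnd]
    refine ⟨hu.unit, ?_, ?_, h2⟩
    · rw [mem_filter, h2, mem_Ico]
      exact ⟨mem_univ _, hn⟩
    · rw [h1]
      exact hne
  · intro u _ _
    rw [ZMod.natCast_zmod_val]

/-- the units of an interval in a residue class modulo `m` -/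
lemma principal (d : ℕ) [NeZero d] (M N : ℕ) (hMN : M + N ≤ d) (m : ℕ) (hm0 : 0 < m) (hm : Nat.Coprime m d) (r : ℤ) :
    |(((univ : Finset ((ZMod d)ˣ)).filter (fun u : (ZMod d)ˣ => (u : ZMod d).val ∈ Ico M (M + N) ∧
      (m : ℤ) ∣ ((u : ZMod d).val : ℤ) - r)).card : ℝ) - (N * (Nat.totient d : ℝ) / d) / m| ≤ 2 ^ d.primeFactors.card := by
  have h := Pool.Agent.H256R2.SC.G3.count_main d 1 m (NeZero.ne d) hm0 (Nat.coprime_one_left d) hm 0 M r N
  have e2 : ((((Finset.Ico (M : ℤ) (M + N)).filter (fun x => IsCoprime (0 + ((1 : ℕ) : ℤ) * x) (d : ℤ))).filter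
      (fun x => (m : ℤ) ∣ x - r)).card) =
      ((univ : Finset ((ZMod d)ˣ)).filter (fun u : (ZMod d)ˣ => (u : ZMod d).val ∈ Ico M (M + N) ∧
        (m : ℤ) ∣ ((u : ZMod d).val : ℤ) - r)).card := by
    symm
    refine card_bij (fun u _ => (((u : ZMod d).val : ℕ) : ℤ)) ?_ ?_ ?_
    · intro u hu
      rw [mem_filter, mem_Ico] at hu
      rw [mem_filter, mem_filter, mem_Ico]
      refine ⟨⟨⟨by exact_mod_cast hu.2.1.1, by exact_mod_cast hu.2.1.2⟩, ?_⟩, hu.2.2⟩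
      have h1 := ZMod.val_coe_unit_coprime u
      rw [Nat.cast_one, one_mul, zero_add]
      exact Nat.isCoprime_iff_coprime.2 h1
    · intro u _ v _ huv
      have : (u : ZMod d).val = (v : ZMod d).val := by exact_mod_cast huv
      exact Units.ext (ZMod.val_injective d this)
    · intro x hx
      rw [mem_filter, mem_filter, mem_Ico] at hx
      obtain ⟨⟨⟨hx0, hxd⟩, hxc⟩, hxm⟩ := hx
      have hx0' : (0 : ℤ) ≤ x := le_trans (by positivity) hx0
      obtain ⟨n, rfl⟩ := Int.eq_ofNat_of_zero_le hx0'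
      have hn1 : M ≤ n := by exact_mod_cast hx0
      have hn2 : n < M + N := by exact_mod_cast hxd
      have hnd : n < d := by omega
      rw [Nat.cast_one, one_mul, zero_add] at hxc
      have hnc : Nat.Coprime n d := Nat.isCoprime_iff_coprime.1 hxc
      have h2 : ((ZMod.unitOfCoprime n hnc : (ZMod d)ˣ) : ZMod d).val = n := by
        rw [ZMod.coe_unitOfCoprime, ZMod.val_natCast_of_lt hnd]
      refine ⟨ZMod.unitOfCoprime n hnc, ?_, ?_⟩
      · rw [mem_filter, h2, mem_Ico]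
        exact ⟨mem_univ _, ⟨hn1, hn2⟩, hxm⟩
      · rw [h2]
  rw [← e2]
  exact h

/-- the character of the units which comes from a character of the quotient -/
noncomputable def qhom {d : ℕ} {Q : Type} [CommGroup Q] (π : (ZMod d)ˣ →* Q) (ψ : AddChar (Additive Q) ℂ) : (ZMod d)ˣ →* ℂ where
  toFun u := ψ (Additive.ofMul (π u))
  map_one' := by
    rw [map_one, ofMul_one, AddChar.map_zero_eq_one]
  map_mul' := by
    intro u v
    rw [map_mul, ofMul_mul, AddChar.map_add_eq_mul]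

/-- the Dirichlet character which comes from a character of the quotient -/
noncomputable def qchar {d : ℕ} {Q : Type} [CommGroup Q] (π : (ZMod d)ˣ →* Q) (ψ : AddChar (Additive Q) ℂ) :
    DirichletCharacter ℂ d :=
  MulChar.ofUnitHom (qhom π ψ).toHomUnits

lemma qchar_apply {d : ℕ} {Q : Type} [CommGroup Q] (π : (ZMod d)ˣ →* Q) (ψ : AddChar (Additive Q) ℂ) (u : (ZMod d)ˣ) :
    qchar π ψ (u : ZMod d) = ψ (Additive.ofMul (π u)) := by
  unfold qchar
  rw [MulChar.ofUnitHom_coe, MonoidHom.coe_toHomUnits]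
  rfl

lemma qchar_ne {d : ℕ} {Q : Type} [CommGroup Q] (π : (ZMod d)ˣ →* Q) (hπ : Function.Surjective π)
    (ψ : AddChar (Additive Q) ℂ) (hψ : ψ ≠ 1) : qchar π ψ ≠ 1 := by
  rw [AddChar.ne_one_iff] at hψ
  obtain ⟨a, ha⟩ := hψ
  obtain ⟨u, hu⟩ := hπ (Additive.toMul a)
  intro h
  apply ha
  have h1 := qchar_apply π ψ u
  rw [h, MulChar.one_apply_coe, hu] at h1
  exact h1.symm

/-- **the members of a fibre in a residue class modulo `m`** -/
theorem fibre_count (d : ℕ) [NeZero d] (hd : 2 ≤ d) {Q : Type} [CommGroup Q] [Fintype Q] (π : (ZMod d)ˣ →* Q)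
    (hπ : Function.Surjective π) (x : (ZMod d)ˣ) (M N : ℕ) (hMN : M + N ≤ d) (m : ℕ) (hm0 : 0 < m) (hm : Nat.Coprime m d) (r : ℤ) :
    |(((univ : Finset ((ZMod d)ˣ)).filter (fun u : (ZMod d)ˣ => π (x⁻¹ * u) = 1 ∧ (u : ZMod d).val ∈ Ico M (M + N) ∧
      (m : ℤ) ∣ ((u : ZMod d).val : ℤ) - r)).card : ℝ) - (N * (Nat.totient d : ℝ) / d) / Fintype.card Q / m| ≤ 2 ^ d.primeFactors.card + 8 * √(d : ℝ) * (1 + Real.log d) := by
  obtain ⟨E, hE⟩ : ∃ E : ℝ, E = 8 * √(d : ℝ) * (1 + Real.log d) := ⟨_, rfl⟩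
  have hE0 : 0 ≤ E := by
    rw [hE]
    have : 0 ≤ Real.log d := Real.log_natCast_nonneg d
    positivity
  obtain ⟨S, hS⟩ : ∃ S : Finset ((ZMod d)ˣ), S = univ.filter (fun u : (ZMod d)ˣ => (u : ZMod d).val ∈ Ico M (M + N) ∧ (m : ℤ) ∣ ((u : ZMod d).val : ℤ) - r) := ⟨_, rfl⟩
  obtain ⟨k, hk⟩ : ∃ k : ℕ, k = Fintype.card (Additive Q) := ⟨_, rfl⟩
  have hkQ : Fintype.card Q = k := by
    rw [hk]
    exact (Fintype.card_congr Additive.ofMul)
  have hk0 : 0 < k := by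
    rw [hk]
    exact Fintype.card_pos
  have hkr : (0 : ℝ) < k := by exact_mod_cast hk0
  -- the sums of the characters
  have hsum : ∀ ψ : AddChar (Additive Q) ℂ, ψ ≠ 1 → ‖∑ u ∈ S, qchar π ψ (u : ZMod d)‖ ≤ E := by
    intro ψ hψ
    rw [hS, units_sum d M N hMN m r]
    obtain ⟨r₀, L, hprog⟩ := prog M N m hm0 r
    rw [hprog (fun n => qchar π ψ (n : ZMod d)), hE]
    exact ap_sum d hd (qchar π ψ) (qchar_ne π hπ ψ hψ) m hm r₀ L
  -- the expansion
  have hexp : (k : ℂ) * ((S.filter (fun u => π (x⁻¹ * u) = 1)).card : ℂ) =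
      ∑ ψ : AddChar (Additive Q) ℂ,
        ψ (Additive.ofMul (π x⁻¹)) * ∑ u ∈ S, qchar π ψ (u : ZMod d) := by
    have h1 : ∀ u ∈ S, ∑ ψ : AddChar (Additive Q) ℂ,
        ψ (Additive.ofMul (π x⁻¹)) * qchar π ψ (u : ZMod d) =
        if π (x⁻¹ * u) = 1 then (k : ℂ) else 0 := by
      intro u _
      have h2 : ∀ ψ : AddChar (Additive Q) ℂ,
          ψ (Additive.ofMul (π x⁻¹)) * qchar π ψ (u : ZMod d) =
          ψ (Additive.ofMul (π (x⁻¹ * u))) := by
        intro ψ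
        rw [qchar_apply, ← AddChar.map_add_eq_mul, ← ofMul_mul, ← map_mul]
      rw [Finset.sum_congr rfl fun ψ _ => h2 ψ, AddChar.sum_apply_eq_ite]
      have h3 : (Additive.ofMul (π (x⁻¹ * u)) = 0) ↔ π (x⁻¹ * u) = 1 := ofMul_eq_zero
      by_cases h4 : π (x⁻¹ * u) = 1
      · rw [if_pos h4, if_pos (h3.2 h4), hk]
      · rw [if_neg h4, if_neg (fun h => h4 (h3.1 h))]
    have h5 : ∑ ψ : AddChar (Additive Q) ℂ,
        ψ (Additive.ofMul (π x⁻¹)) * ∑ u ∈ S, qchar π ψ (u : ZMod d) =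
        ∑ u ∈ S, ∑ ψ : AddChar (Additive Q) ℂ,
        ψ (Additive.ofMul (π x⁻¹)) * qchar π ψ (u : ZMod d) := by
      rw [sum_comm]
      exact sum_congr rfl fun ψ _ => mul_sum _ _ _
    rw [h5, sum_congr rfl h1, ← sum_filter, sum_const, nsmul_eq_mul, mul_comm]
  have hsplit : (k : ℂ) * ((S.filter (fun u => π (x⁻¹ * u) = 1)).card : ℂ) - (S.card : ℂ) =
      ∑ ψ ∈ (univ : Finset (AddChar (Additive Q) ℂ)).erase 1,
        ψ (Additive.ofMul (π x⁻¹)) * ∑ u ∈ S, qchar π ψ (u : ZMod d) := by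
    rw [hexp, ← add_sum_erase univ _ (mem_univ (1 : AddChar (Additive Q) ℂ))]
    have h1 : (1 : AddChar (Additive Q) ℂ) (Additive.ofMul (π x⁻¹)) *
        ∑ u ∈ S, qchar π 1 (u : ZMod d) = (S.card : ℂ) := by
      rw [AddChar.one_apply, one_mul]
      have h2 : ∀ u ∈ S, qchar π 1 (u : ZMod d) = 1 := fun u _ => by rw [qchar_apply, AddChar.one_apply]
      rw [sum_congr rfl h2, sum_const, nsmul_eq_mul, mul_one]
    rw [h1]
    ring
  have hnorm : ‖(k : ℂ) * ((S.filter (fun u => π (x⁻¹ * u) = 1)).card : ℂ) - (S.card : ℂ)‖ ≤ k * E := by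
    rw [hsplit]
    refine (norm_sum_le _ _).trans ((sum_le_card_nsmul _ _ E fun ψ hψ => ?_).trans ?_)
    · rw [norm_mul, AddChar.norm_apply, one_mul]
      exact hsum ψ (mem_erase.1 hψ).1
    · rw [nsmul_eq_mul]
      apply mul_le_mul_of_nonneg_right _ hE0
      have h1 : ((univ : Finset (AddChar (Additive Q) ℂ)).erase 1).card ≤ k := by
        refine (card_erase_le).trans (le_of_eq ?_)
        rw [card_univ, AddChar.card_eq, hk]
      exact_mod_cast h1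
  have hreal : |(k : ℝ) * ((S.filter (fun u => π (x⁻¹ * u) = 1)).card : ℝ) - (S.card : ℝ)| ≤ k * E := by
    have h1 : (k : ℂ) * ((S.filter (fun u => π (x⁻¹ * u) = 1)).card : ℂ) - (S.card : ℂ) =
        (((k : ℝ) * ((S.filter (fun u => π (x⁻¹ * u) = 1)).card : ℝ) - (S.card : ℝ) : ℝ) : ℂ) := by push_cast; ring
    rw [h1, Complex.norm_real, Real.norm_eq_abs] at hnorm
    exact hnorm
  have hpr := principal d M N hMN m hm0 hm r
  rw [← hS] at hpr
  have hfil : (univ : Finset ((ZMod d)ˣ)).filter (fun u : (ZMod d)ˣ => π (x⁻¹ * u) = 1 ∧ (u : ZMod d).val ∈ Ico M (M + N) ∧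
      (m : ℤ) ∣ ((u : ZMod d).val : ℤ) - r) = S.filter (fun u => π (x⁻¹ * u) = 1) := by
    rw [hS, filter_filter]
    exact filter_congr fun u _ => and_comm
  rw [hfil, ← hE, hkQ]
  obtain ⟨Y, hY⟩ : ∃ Y : ℝ, Y = ((S.filter (fun u => π (x⁻¹ * u) = 1)).card : ℝ) := ⟨_, rfl⟩
  rw [← hY] at hreal ⊢
  have hm0r : (0 : ℝ) < m := by exact_mod_cast hm0
  obtain ⟨V, hV⟩ : ∃ V : ℝ, V = N * (Nat.totient d : ℝ) / d := ⟨_, rfl⟩
  rw [← hV] at hpr ⊢
  have h1 : |(k : ℝ) * (Y - V / k / m)| ≤ k * (2 ^ d.primeFactors.card + E) := by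
    have e1 : (k : ℝ) * (Y - V / k / m) = (k * Y - S.card) + (S.card - V / m) := by
      field_simp
      ring
    rw [e1]
    refine (abs_add_le _ _).trans ?_
    have h2 : (1 : ℝ) ≤ k := by exact_mod_cast hk0
    have h3 : (0 : ℝ) ≤ 2 ^ d.primeFactors.card := by positivity
    nlinarith
  rw [abs_mul, abs_of_pos hkr] at h1
  exact le_of_mul_le_mul_left h1 hkr

/-- **the members of a coset and an interval in a residue class modulo `m`** -/
theorem coset_count (d : ℕ) [NeZero d] (hd : 2 ≤ d) (H : Subgroup (ZMod d)ˣ) (x : (ZMod d)ˣ) (M N : ℕ) (hMN : M + N ≤ d)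
    (m : ℕ) (hm0 : 0 < m) (hm : Nat.Coprime m d) (r : ℤ) :
    |(((univ : Finset ((ZMod d)ˣ)).filter (fun u : (ZMod d)ˣ => x⁻¹ * u ∈ H ∧ (u : ZMod d).val ∈ Ico M (M + N) ∧
      (m : ℤ) ∣ ((u : ZMod d).val : ℤ) - r)).card : ℝ) -
      (N * (Nat.totient d : ℝ) / d) / H.index / m| ≤ 2 ^ d.primeFactors.card + 8 * √(d : ℝ) * (1 + Real.log d) := by
  have hfin : Finite ((ZMod d)ˣ ⧸ H) := Finite.of_surjective _ QuotientGroup.mk_surjective
  let _inst : Fintype ((ZMod d)ˣ ⧸ H) := Fintype.ofFinite _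
  have h := fibre_count d hd (Q := (ZMod d)ˣ ⧸ H) (QuotientGroup.mk' H) (QuotientGroup.mk'_surjective H) x M N hMN m hm0 hm r
  have e1 : (Fintype.card ((ZMod d)ˣ ⧸ H) : ℝ) = H.index := by
    have : Fintype.card ((ZMod d)ˣ ⧸ H) = H.index := by
      rw [← Nat.card_eq_fintype_card]
      rfl
    exact_mod_cast this
  rw [e1] at h
  have e2 : (univ : Finset ((ZMod d)ˣ)).filter (fun u : (ZMod d)ˣ => x⁻¹ * u ∈ H ∧ (u : ZMod d).val ∈ Ico M (M + N) ∧
      (m : ℤ) ∣ ((u : ZMod d).val : ℤ) - r) =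
      (univ : Finset ((ZMod d)ˣ)).filter (fun u : (ZMod d)ˣ => QuotientGroup.mk' H (x⁻¹ * u) = 1 ∧
        (u : ZMod d).val ∈ Ico M (M + N) ∧ (m : ℤ) ∣ ((u : ZMod d).val : ℤ) - r) := by
    apply filter_congr
    intro u _
    have h3 : QuotientGroup.mk' H (x⁻¹ * u) = 1 ↔ x⁻¹ * u ∈ H := QuotientGroup.eq_one_iff _
    rw [h3]
  rw [e2]
  convert h

/-- the parameters -/
lemma ev_coset (ε : ℝ) (hε : 0 < ε) (hε1 : ε ≤ 1 / 2) : ∃ d₀ : ℕ, ∀ d : ℕ, d₀ ≤ d → 2 ≤ d ∧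
    (2 : ℝ) ^ d.primeFactors.card + 8 * √(d : ℝ) * (1 + Real.log d) ≤ (d : ℝ) ^ (1 / 2 + ε / 4) / 2 ∧
    (d : ℝ) ^ (ε / 4) + 1 ≤ (d : ℝ) ^ (1 / 2 + ε / 4) / 2 ∧
    (d : ℝ) ^ (1 - ε / 4) ≤ Nat.totient d := by
  obtain ⟨d₁, h1⟩ := Pool.Agent.H256R2.SC.G3.omega_bound
  have hκ : 0 < ε / 4 := by positivity
  have h2 := (isLittleO_log_rpow_atTop hκ).bound (show (0 : ℝ) < 1 / 64 by norm_num)
  have h3 := (tendsto_rpow_atTop hκ).eventually_ge_atTop (64 : ℝ)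
  have h4 := (tendsto_rpow_atTop (show (0 : ℝ) < 9 / 20 by norm_num)).eventually_ge_atTop (8 : ℝ)
  obtain ⟨c₃, hc₃, D₀, htot⟩ := Pool.Agent.H378R2.RM.tot_low
  have h5 := (Real.tendsto_log_atTop).eventually_ge_atTop (max D₀ (max (1 / c₃) 3))
  have h6 := (isLittleO_log_rpow_atTop (show 0 < ε / 8 by positivity)).bound (show (0 : ℝ) < 1 by norm_num)
  obtain ⟨x₀, h⟩ := eventually_atTop.1 ((((h2.and h3).and (h4.and h5)).and h6).and (eventually_ge_atTop (2 : ℝ)))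
  obtain ⟨d₂, hd₂⟩ := exists_nat_ge x₀
  refine ⟨d₁ + d₂, fun d hd => ?_⟩
  obtain ⟨⟨⟨⟨g2, g3⟩, g4, g5⟩, g6⟩, g7⟩ := h d (hd₂.trans (by exact_mod_cast (by omega : d₂ ≤ d)))
  have hd1 : (1 : ℝ) ≤ d := by linarith
  have hd0 : (0 : ℝ) < d := by linarith
  have hdn : d ≠ 0 := by
    rintro rfl
    norm_num at hd0
  have hom := h1 d (by omega)
  have hlog0 : 0 ≤ Real.log d := Real.log_nonneg hd1
  rw [Real.norm_of_nonneg hlog0, Real.norm_of_nonneg (by positivity)] at g2 g6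
  rw [one_mul] at g6
  obtain ⟨Y, hY⟩ : ∃ Y : ℝ, Y = (d : ℝ) ^ (ε / 4) := ⟨_, rfl⟩
  rw [← hY] at g2 g3
  have hsplit : (d : ℝ) ^ (1 / 2 + ε / 4) = √(d : ℝ) * Y := by
    rw [Real.rpow_add hd0, Real.sqrt_eq_rpow, hY]
  have hsq1 : 1 ≤ √(d : ℝ) := by
    rw [Real.one_le_sqrt]
    exact hd1
  have hsqb : (d : ℝ) ^ (1 / 20 : ℝ) ≤ √(d : ℝ) := by
    rw [Real.sqrt_eq_rpow]
    exact Real.rpow_le_rpow_of_exponent_le hd1 (by norm_num)
  have hsq8 : 8 ≤ √(d : ℝ) := by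
    rw [Real.sqrt_eq_rpow]
    refine g4.trans (Real.rpow_le_rpow_of_exponent_le hd1 (by norm_num))
  refine ⟨by exact_mod_cast g7, ?_, ?_, ?_⟩
  · rw [hsplit]
    have e1 : 8 * (1 + Real.log d) ≤ Y / 4 := by linarith
    have e2 : √(d : ℝ) * (8 * (1 + Real.log d)) ≤ √(d : ℝ) * (Y / 4) := mul_le_mul_of_nonneg_left e1 (by linarith)
    have e3 : √(d : ℝ) * 1 ≤ √(d : ℝ) * (Y / 4) := mul_le_mul_of_nonneg_left (by linarith) (by linarith)
    have e4 := hom.trans hsqb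
    linarith
  · rw [hsplit, ← hY]
    nlinarith
  · have g5a : D₀ ≤ Real.log d := (le_max_left _ _).trans g5
    have g5b : 1 / c₃ ≤ Real.log d := ((le_max_left _ _).trans (le_max_right _ _)).trans g5
    have g5c : 3 ≤ Real.log d := ((le_max_right _ _).trans (le_max_right _ _)).trans g5
    have e1 := htot d g5a
    rw [← Pool.Agent.H256R2.SC.G3.totient_div d hdn] at e1
    have hll : 0 < Real.log (Real.log d) := Real.log_pos (by linarith)
    have hll2 : Real.log (Real.log d) ≤ Real.log d := by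
      have := Real.log_le_sub_one_of_pos (show 0 < Real.log d by linarith)
      linarith
    have e2 : (d : ℝ) ^ (-(ε / 4)) ≤ c₃ / Real.log (Real.log d) := by
      rw [le_div_iff₀ hll, Real.rpow_neg hd0.le, inv_mul_le_iff₀ (by positivity)]
      have e3 : 1 ≤ c₃ * Real.log d := by
        rw [div_le_iff₀ hc₃] at g5b
        linarith
      have e4 : Real.log d * Real.log d ≤ (d : ℝ) ^ (ε / 4) := by
        calc Real.log d * Real.log d ≤ (d : ℝ) ^ (ε / 8) * (d : ℝ) ^ (ε / 8) := mul_le_mul g6 g6 hlog0 (by positivity)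
          _ = (d : ℝ) ^ (ε / 4) := by
              rw [← Real.rpow_add hd0]
              congr 1
              ring
      calc Real.log (Real.log d) ≤ Real.log d := hll2
        _ = Real.log d * 1 := (mul_one _).symm
        _ ≤ Real.log d * (c₃ * Real.log d) := mul_le_mul_of_nonneg_left e3 hlog0
        _ = (Real.log d * Real.log d) * c₃ := by ring
        _ ≤ (d : ℝ) ^ (ε / 4) * c₃ := mul_le_mul_of_nonneg_right e4 hc₃.le
    have e5 := e2.trans e1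
    rw [le_div_iff₀ hd0] at e5
    calc (d : ℝ) ^ (1 - ε / 4) = (d : ℝ) ^ (-(ε / 4)) * d := by
          rw [sub_eq_add_neg, Real.rpow_add hd0, Real.rpow_one, mul_comm]
      _ ≤ _ := e5

/-- **the intersections of cosets and intervals are spread** -/
theorem spread_coset (ε : ℝ) (hε : 0 < ε) (hε1 : ε ≤ 1 / 2) : ∃ d₀ : ℕ, ∀ d : ℕ, d₀ ≤ d → ∀ [NeZero d],
    ∀ (H : Subgroup (ZMod d)ˣ) (M N : ℕ), M + N ≤ d → (H.index : ℝ) * (d : ℝ) ^ (1 / 2 + ε) ≤ N → ∀ x : (ZMod d)ˣ,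
    ∀ s : Finset ((ZMod d)ˣ), (∀ u : (ZMod d)ˣ, u ∈ s ↔ x⁻¹ * u ∈ H ∧ (u : ZMod d).val ∈ Ico M (M + N)) →
    Spread (ε / 8) d s (fun u => (u : ZMod d).val) := by
  obtain ⟨d₀, h⟩ := ev_coset ε hε hε1
  have hκ : 0 < ε / 8 := by positivity
  obtain ⟨x₁, hx₁⟩ := eventually_atTop.1 ((tendsto_rpow_atTop hκ).eventually_ge_atTop (4 : ℝ))
  obtain ⟨d₁, hd₁⟩ := exists_nat_ge x₁
  refine ⟨d₀ + d₁, fun d hd _ H M N hMN hH x s hs => ?_⟩
  obtain ⟨hd2, h1, h2, h3⟩ := h d (by omega)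
  have h4' := hx₁ d (hd₁.trans (by exact_mod_cast (by omega : d₁ ≤ d)))
  have hd1 : (1 : ℝ) ≤ d := by exact_mod_cast (by omega : 1 ≤ d)
  have hd0 : (0 : ℝ) < d := by linarith
  obtain ⟨Z, hZ⟩ : ∃ Z : ℝ, Z = (N * (Nat.totient d : ℝ) / d) / H.index := ⟨_, rfl⟩
  obtain ⟨E, hE⟩ : ∃ E : ℝ, E = (d : ℝ) ^ (1 / 2 + ε / 4) / 2 := ⟨_, rfl⟩
  have hE0 : 0 < E := by rw [hE]; positivity
  have hcount : ∀ m : ℕ, 0 < m → Nat.Coprime m d → ∀ r : ℤ,
      |((s.filter (fun u : (ZMod d)ˣ => (m : ℤ) ∣ ((u : ZMod d).val : ℤ) - r)).card : ℝ) - Z / m| ≤ E := by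
    intro m hm0 hm r
    have h4 := coset_count d hd2 H x M N hMN m hm0 hm r
    have h5 : s.filter (fun u : (ZMod d)ˣ => (m : ℤ) ∣ ((u : ZMod d).val : ℤ) - r) =
        (univ : Finset ((ZMod d)ˣ)).filter (fun u : (ZMod d)ˣ => x⁻¹ * u ∈ H ∧ (u : ZMod d).val ∈ Ico M (M + N) ∧
          (m : ℤ) ∣ ((u : ZMod d).val : ℤ) - r) := by
      ext u
      rw [mem_filter, mem_filter, hs]
      constructor
      · rintro ⟨⟨a, b⟩, c⟩
        exact ⟨mem_univ _, a, b, c⟩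
      · rintro ⟨_, a, b, c⟩
        exact ⟨⟨a, b⟩, c⟩
    rw [h5, hE, hZ]
    exact h4.trans h1
  have hcard : |(s.card : ℝ) - Z| ≤ E := by
    have h5 := hcount 1 one_pos (Nat.coprime_one_left d) 0
    have h6 : s.filter (fun u : (ZMod d)ˣ => ((1 : ℕ) : ℤ) ∣ ((u : ZMod d).val : ℤ) - 0) = s := by
      apply filter_true_of_mem
      intro u _
      simp
    rw [h6, Nat.cast_one, div_one] at h5
    exact h5
  have hind : (0 : ℝ) < H.index := by
    have : 0 < H.index := Nat.pos_of_ne_zero Subgroup.FiniteIndex.index_ne_zero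
    exact_mod_cast this
  have hZbig : (d : ℝ) ^ (1 / 2 + 3 * ε / 4) ≤ Z := by
    rw [hZ, le_div_iff₀ hind, le_div_iff₀ hd0]
    calc (d : ℝ) ^ (1 / 2 + 3 * ε / 4) * H.index * d = (H.index * (d : ℝ) ^ (1 / 2 + ε)) * (d : ℝ) ^ (1 - ε / 4) := by
          have e1 : (d : ℝ) ^ (1 / 2 + 3 * ε / 4) * d = (d : ℝ) ^ (1 / 2 + ε) * (d : ℝ) ^ (1 - ε / 4) := by
            rw [← Real.rpow_add hd0, ← Real.rpow_add_one hd0.ne']
            congr 1
            ring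
          calc (d : ℝ) ^ (1 / 2 + 3 * ε / 4) * H.index * d = H.index * ((d : ℝ) ^ (1 / 2 + 3 * ε / 4) * d) := by ring
            _ = _ := by rw [e1]; ring
      _ ≤ N * (Nat.totient d : ℝ) := mul_le_mul hH h3 (by positivity) (Nat.cast_nonneg _)
  have hEZ : 4 * ((d : ℝ) ^ (ε / 8) * E) ≤ Z := by
    refine le_trans ?_ hZbig
    have e1 : (d : ℝ) ^ (1 / 2 + 3 * ε / 4) = (d : ℝ) ^ (ε / 8) * ((d : ℝ) ^ (1 / 2 + ε / 4) * (d : ℝ) ^ (3 * ε / 8)) := by
      rw [← Real.rpow_add hd0, ← Real.rpow_add hd0]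
      congr 1
      ring
    have e2 : (4 : ℝ) ≤ (d : ℝ) ^ (3 * ε / 8) := h4'.trans (Real.rpow_le_rpow_of_exponent_le hd1 (by linarith))
    rw [e1, hE]
    have e3 : 0 ≤ (d : ℝ) ^ (1 / 2 + ε / 4) := by positivity
    have e4 : 4 * ((d : ℝ) ^ (1 / 2 + ε / 4) / 2) ≤ (d : ℝ) ^ (1 / 2 + ε / 4) * (d : ℝ) ^ (3 * ε / 8) := by nlinarith
    calc 4 * ((d : ℝ) ^ (ε / 8) * ((d : ℝ) ^ (1 / 2 + ε / 4) / 2)) =
          (d : ℝ) ^ (ε / 8) * (4 * ((d : ℝ) ^ (1 / 2 + ε / 4) / 2)) := by ring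
      _ ≤ _ := mul_le_mul_of_nonneg_left e4 (by positivity)
  have hY1 : 1 ≤ (d : ℝ) ^ (ε / 8) := by linarith
  have hE1 : E ≤ (d : ℝ) ^ (ε / 8) * E := le_mul_of_one_le_left hE0.le hY1
  have hcl := (abs_le.1 hcard).1
  have hsbig : 2 * ((d : ℝ) ^ (ε / 8) * E) ≤ s.card := by linarith
  have hrel : 2 * E ≤ (d : ℝ) ^ (-(ε / 8)) * s.card := by
    rw [Real.rpow_neg hd0.le, ← div_eq_inv_mul, le_div_iff₀ (by positivity)]
    linarith
  have hs0 : (0 : ℝ) < s.card := lt_of_lt_of_le (by positivity) hsbig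
  refine ⟨card_pos.1 (by exact_mod_cast hs0), fun u _ => ZMod.val_lt _, ?_, fun m hm hmd _ r => ?_⟩
  · have h4 : ((s.filter (fun u : (ZMod d)ˣ => (((u : ZMod d).val : ℕ) : ℝ) ≤ (d : ℝ) ^ (ε / 8) ∨
        ¬ Nat.Coprime (u : ZMod d).val d)).card : ℝ) ≤ (d : ℝ) ^ (ε / 8) + 1 := by
      have h5 : (s.filter (fun u : (ZMod d)ˣ => (((u : ZMod d).val : ℕ) : ℝ) ≤ (d : ℝ) ^ (ε / 8) ∨
          ¬ Nat.Coprime (u : ZMod d).val d)).card ≤ (range (⌊(d : ℝ) ^ (ε / 8)⌋₊ + 1)).card := by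
        refine card_le_card_of_injOn (fun u : (ZMod d)ˣ => (u : ZMod d).val) ?_ ?_
        · intro u hu
          rw [mem_coe, mem_filter] at hu
          rw [mem_coe, mem_range, Nat.lt_succ_iff]
          rcases hu.2 with h6 | h6
          · exact Nat.le_floor h6
          · exact absurd (ZMod.val_coe_unit_coprime u) h6
        · intro u _ v _ huv
          exact Units.ext (ZMod.val_injective d huv)
      rw [card_range] at h5
      have h6 : ((s.filter (fun u : (ZMod d)ˣ => (((u : ZMod d).val : ℕ) : ℝ) ≤ (d : ℝ) ^ (ε / 8) ∨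
          ¬ Nat.Coprime (u : ZMod d).val d)).card : ℝ) ≤ ((⌊(d : ℝ) ^ (ε / 8)⌋₊ + 1 : ℕ) : ℝ) := by exact_mod_cast h5
      push_cast at h6
      have h7 := Nat.floor_le (show 0 ≤ (d : ℝ) ^ (ε / 8) by positivity)
      linarith
    have h8 : (d : ℝ) ^ (ε / 8) ≤ (d : ℝ) ^ (ε / 4) := Real.rpow_le_rpow_of_exponent_le hd1 (by linarith)
    have h9 : (d : ℝ) ^ (ε / 4) + 1 ≤ E := by rw [hE]; exact h2
    linarith
  · have h4 := hcount m (Nat.pos_of_ne_zero hm.ne_zero) hmd r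
    have hm1 : (1 : ℝ) ≤ m := by exact_mod_cast Nat.pos_of_ne_zero hm.ne_zero
    have h5 : |Z / m - s.card / m| ≤ E := by
      rw [← sub_div, abs_div, abs_of_pos (show (0 : ℝ) < m by linarith), abs_sub_comm]
      exact (div_le_self (abs_nonneg _) hm1).trans hcard
    have h6 : ((s.filter (fun u : (ZMod d)ˣ => (m : ℤ) ∣ ((u : ZMod d).val : ℤ) - r)).card : ℝ) - s.card / m =
        (((s.filter (fun u : (ZMod d)ˣ => (m : ℤ) ∣ ((u : ZMod d).val : ℤ) - r)).card : ℝ) - Z / m) +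
        (Z / m - s.card / m) := by ring
    rw [h6]
    refine (abs_add_le _ _).trans ?_
    linarith

end Pool.Agent.J6H92.LPr
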