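import Mathlib
import Pool.Agent.H378R2.RM.SurvM
import Pool.Agent.H378R2.RM.Ev
import Pool.Agent.TH915.PW.Cov
import Pool.Agent.H256R2.SC.G3

/-!
# Classes with a large least prime inside families of residue classes which are equidistributed to small moduli
-/

set_option autoImplicit false
set_option maxHeartbeats 4000000

namespace Pool.Agent.J6H92.LPr

open Finset Filter Pool.Agent.H256R2.SC.G3 Pool.Agent.H378R2.RM

open scoped Classical

/-- the size of the record: `log d (log_2 d)^2 log_4 d / (log_3 d)^2`, as a function of `l = log d` -/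
noncomputable def FF (l : ℝ) : ℝ :=
  l * (Real.log l) ^ 2 * Real.log (Real.log (Real.log l)) / (Real.log (Real.log l)) ^ 2

/-- `a i`, `i ∈ s`, are residues modulo `d`, almost all prime to `d` and not small, equidistributed in the residue classes
with small squarefree moduli prime to `d` -/
structure Spread (δ : ℝ) (d : ℕ) {ι : Type} (s : Finset ι) (a : ι → ℕ) : Prop where
  ne : s.Nonempty
  lt : ∀ i ∈ s, a i < d
  bad : ((s.filter (fun i => (a i : ℝ) ≤ (d : ℝ) ^ δ ∨ ¬ Nat.Coprime (a i) d)).card : ℝ) ≤ (d : ℝ) ^ (-δ) * s.card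
  equi : ∀ m : ℕ, Squarefree m → Nat.Coprime m d → (m : ℝ) ≤ (d : ℝ) ^ δ → ∀ r : ℤ,
    |((s.filter (fun i => (m : ℤ) ∣ (a i : ℤ) - r)).card : ℝ) - s.card / m| ≤ (d : ℝ) ^ (-δ) * s.card

/-- comparison of the scales `l` and `δ l` -/
lemma ev_scale (δ : ℝ) (hδ : 0 < δ) (hδ1 : δ ≤ 1) : ∃ l₀ : ℝ, ∀ l : ℝ, l₀ ≤ l →
    49 / 50 * Real.log l ≤ Real.log (δ * l) ∧ Real.log (δ * l) ≤ Real.log l ∧
    0 < Real.log (Real.log (δ * l)) ∧
    Real.log (Real.log (δ * l)) ≤ Real.log (Real.log l) ∧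
    49 / 50 * Real.log (Real.log (Real.log l)) ≤ Real.log (Real.log (Real.log (δ * l))) ∧
    1 / (4 * δ) ≤ Real.log (δ * l) ∧ 1 ≤ Real.log (Real.log (Real.log l)) := by
  have hlog := Real.tendsto_log_atTop
  have hll : Tendsto (fun l : ℝ => Real.log (Real.log l)) atTop atTop := hlog.comp hlog
  have hlll : Tendsto (fun l : ℝ => Real.log (Real.log (Real.log l))) atTop atTop := hlog.comp hll
  have hall := (((eventually_ge_atTop (1 : ℝ)).and (hlog.eventually_ge_atTop (max (50 * |Real.log δ|) (1 / δ + 1)))).and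
    (hll.eventually_ge_atTop 10)).and (hlll.eventually_ge_atTop 10)
  obtain ⟨l₀, h⟩ := eventually_atTop.1 hall
  refine ⟨l₀, fun l hl => ?_⟩
  obtain ⟨⟨⟨h1, h2⟩, h3⟩, h4⟩ := h l hl
  have h2a : 50 * |Real.log δ| ≤ Real.log l := (le_max_left _ _).trans h2
  have h2b : 1 / δ + 1 ≤ Real.log l := (le_max_right _ _).trans h2
  have hl0 : 0 < l := by linarith
  have e1 : Real.log (δ * l) = Real.log δ + Real.log l := Real.log_mul hδ.ne' hl0.ne'
  have hneg := neg_abs_le (Real.log δ)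
  have hld : Real.log δ ≤ 0 := Real.log_nonpos hδ.le hδ1
  have a1 : 49 / 50 * Real.log l ≤ Real.log (δ * l) := by rw [e1]; linarith
  have a2 : Real.log (δ * l) ≤ Real.log l := by rw [e1]; linarith
  have h1δ : 0 < 1 / δ := by positivity
  have hu0 : 0 < Real.log l := by linarith
  have hu1 : 0 < Real.log (δ * l) := by linarith
  have hc : -(1 / 10 : ℝ) ≤ Real.log (49 / 50) := by
    rw [Real.le_log_iff_exp_le (by norm_num)]
    have : Real.exp (-(1 / 10)) ≤ 1 / (1 + 1 / 10) := by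
      rw [Real.exp_neg, ← one_div]
      apply one_div_le_one_div_of_le (by norm_num)
      have := Real.add_one_le_exp (1 / 10 : ℝ)
      linarith
    exact this.trans (by norm_num)
  have b1 : Real.log (Real.log l) - 1 / 10 ≤ Real.log (Real.log (δ * l)) := by
    have := Real.log_le_log (by positivity) a1
    rw [Real.log_mul (by norm_num) hu0.ne'] at this
    linarith
  have b2 : 49 / 50 * Real.log (Real.log l) ≤ Real.log (Real.log (δ * l)) := by linarith
  have hs0 : 0 < Real.log (Real.log l) := by linarith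
  have c1 : Real.log (Real.log (Real.log l)) - 1 / 10 ≤ Real.log (Real.log (Real.log (δ * l))) := by
    have := Real.log_le_log (by positivity) b2
    rw [Real.log_mul (by norm_num) hs0.ne'] at this
    linarith
  refine ⟨a1, a2, by linarith, Real.log_le_log hu1 a2, by linarith, ?_, by linarith⟩
  refine le_trans ?_ a1
  have : 1 / (4 * δ) = 1 / 4 * (1 / δ) := by field_simp
  rw [this]
  linarith

/-- the number of the large prime factors -/
lemma card_large (d : ℕ) (hd : d ≠ 0) (z : ℝ) (hz : 1 < z) :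
    ((d.primeFactors.filter (fun p : ℕ => z < (p : ℝ))).card : ℝ) * Real.log z ≤ Real.log d := by
  have hz0 : 0 < z := by linarith
  have h1 : z ^ (d.primeFactors.filter (fun p : ℕ => z < (p : ℝ))).card ≤ (d : ℝ) := by
    have h2 : ∏ p ∈ d.primeFactors.filter (fun p : ℕ => z < (p : ℝ)), z ≤
        ∏ p ∈ d.primeFactors.filter (fun p : ℕ => z < (p : ℝ)), (p : ℝ) :=
      Finset.prod_le_prod (fun _ _ => hz0.le) fun p hp => (Finset.mem_filter.1 hp).2.le
    rw [Finset.prod_const] at h2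
    refine h2.trans ?_
    have h3 : ∏ p ∈ d.primeFactors.filter (fun p : ℕ => z < (p : ℝ)), p ∣ d :=
      (Finset.prod_dvd_prod_of_subset _ _ _ (Finset.filter_subset _ _)).trans (Nat.prod_primeFactors_dvd d)
    have h4 := Nat.le_of_dvd (Nat.pos_of_ne_zero hd) h3
    rw [← Nat.cast_prod]
    exact Nat.cast_le.2 h4
  have h2 := Real.log_le_log (by positivity) h1
  rwa [Real.log_pow] at h2

/-- the class modulo `P q` -/
lemma crt_two (P q : ℕ) (hqP : Nat.Coprime P q) (b0 r : ℤ) : ∃ r' : ℤ, ∀ z : ℤ,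
    ((P * q : ℕ) : ℤ) ∣ z - r' ↔ (P : ℤ) ∣ z - b0 ∧ (q : ℤ) ∣ z - r := by
  obtain ⟨x, y', hxy⟩ := Nat.isCoprime_iff_coprime.2 hqP
  refine ⟨b0 * (y' * q) + r * (x * P), fun z => ?_⟩
  have hPz : (P : ℤ) ∣ z - (b0 * (y' * q) + r * (x * P)) ↔ (P : ℤ) ∣ z - b0 := by
    have e1 : z - (b0 * (y' * q) + r * (x * P)) = (z - b0) - (r - b0) * (x * P) := by
      linear_combination (-b0) * hxy
    rw [e1]
    constructor
    · intro h
      have := dvd_add h (Dvd.dvd.mul_left (Dvd.intro_left x rfl : (P : ℤ) ∣ x * P) (r - b0))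
      simpa using this
    · intro h
      exact dvd_sub h (Dvd.dvd.mul_left (Dvd.intro_left x rfl : (P : ℤ) ∣ x * P) (r - b0))
  have hqz : (q : ℤ) ∣ z - (b0 * (y' * q) + r * (x * P)) ↔ (q : ℤ) ∣ z - r := by
    have e2 : z - (b0 * (y' * q) + r * (x * P)) = (z - r) - (b0 - r) * (y' * q) := by
      linear_combination (-r) * hxy
    rw [e2]
    constructor
    · intro h
      have := dvd_add h (Dvd.dvd.mul_left (Dvd.intro_left y' rfl : (q : ℤ) ∣ y' * q) (b0 - r))
      simpa using this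
    · intro h
      exact dvd_sub h (Dvd.dvd.mul_left (Dvd.intro_left y' rfl : (q : ℤ) ∣ y' * q) (b0 - r))
  rw [← hPz, ← hqz, Nat.cast_mul]
  constructor
  · intro h
    exact ⟨(Dvd.intro _ rfl).trans h, (Dvd.intro_left _ rfl).trans h⟩
  · rintro ⟨h1, h2⟩
    exact (Nat.isCoprime_iff_coprime.2 hqP).mul_dvd h1 h2

/-- the number of the candidates in a residue class -/
lemma count_cand {δ : ℝ} {d : ℕ} {ι : Type} {s : Finset ι} {a : ι → ℕ} (hsp : Spread δ d s a) (P q : ℕ)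
    (hqP : Nat.Coprime P q) (hPsq : Squarefree P) (hq : Squarefree q) (hPd : Nat.Coprime P d) (hqd : Nat.Coprime q d)
    (hm : ((P * q : ℕ) : ℝ) ≤ (d : ℝ) ^ δ) (b0 r : ℤ) :
    |((((s.filter (fun i => (P : ℤ) ∣ (a i : ℤ) - b0 ∧ ¬ ((a i : ℝ) ≤ (d : ℝ) ^ δ ∨ ¬ Nat.Coprime (a i) d))).filter
      (fun i => (q : ℤ) ∣ (a i : ℤ) - r)).card : ℝ)) - s.card / P / q| ≤ 2 * ((d : ℝ) ^ (-δ) * s.card) := by
  obtain ⟨r', hr1⟩ := crt_two P q hqP b0 r
  have h1 := hsp.equi (P * q) ((Nat.squarefree_mul hqP).2 ⟨hPsq, hq⟩) (Nat.Coprime.mul_left hPd hqd) hm r'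
  have h2 := hsp.bad
  obtain ⟨E₁, hE₁⟩ : ∃ E₁, E₁ = s.filter (fun i => ((P * q : ℕ) : ℤ) ∣ (a i : ℤ) - r') := ⟨_, rfl⟩
  obtain ⟨E₂, hE₂⟩ : ∃ E₂, E₂ = s.filter (fun i => (a i : ℝ) ≤ (d : ℝ) ^ δ ∨ ¬ Nat.Coprime (a i) d) := ⟨_, rfl⟩
  rw [← hE₁] at h1
  rw [← hE₂] at h2
  have e3 : (s.filter (fun i => (P : ℤ) ∣ (a i : ℤ) - b0 ∧ ¬ ((a i : ℝ) ≤ (d : ℝ) ^ δ ∨ ¬ Nat.Coprime (a i) d))).filter
      (fun i => (q : ℤ) ∣ (a i : ℤ) - r) = E₁ \ E₂ := by
    ext i
    rw [hE₁, hE₂, Finset.mem_filter, Finset.mem_filter, Finset.mem_sdiff, Finset.mem_filter, Finset.mem_filter, hr1]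
    tauto
  have e4 : ((E₁ \ E₂).card : ℝ) ≤ E₁.card := by exact_mod_cast Finset.card_le_card Finset.sdiff_subset
  have e5 : (E₁.card : ℝ) ≤ (E₁ \ E₂).card + E₂.card := by
    have := Finset.card_le_card_sdiff_add_card (s := E₁) (t := E₂)
    exact_mod_cast this
  rw [e3]
  have e6 : (s.card : ℝ) / P / q = s.card / ((P * q : ℕ) : ℝ) := by rw [Nat.cast_mul, div_div]
  rw [e6]
  rw [abs_le] at h1 ⊢
  constructor <;> linarith [h1.1, h1.2]

/-- the statement of the covering theorem -/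
def CovG (c₁ X₀ : ℝ) : Prop := ∀ X : ℝ, X₀ ≤ X →
    ∀ (B : Finset ℕ), (B.card : ℝ) ≤ 2 * Real.log X →
    ∀ (κ : Type) [Fintype κ] [DecidableEq κ], (Fintype.card κ : ℝ) ≤ c₁ * Real.log X →
    ∀ (res : ℕ → κ → ℤ),
    (∀ p : ℕ, p.Prime → (Real.log X) ^ 2 < p → (p : ℝ) ≤ X ^ (1 / 10 : ℝ) → p ∉ B →
      ∀ k l, k ≠ l → ¬ ((p : ℤ) ∣ res p k - res p l)) →
    ∀ (ι : Type) (𝒜 : Finset ι) (v : ι → ℤ) (N Err : ℝ), 0 < N → 0 ≤ Err →
    Err ≤ N * X ^ (-(2 / 5) : ℝ) →
    (∀ q : ℕ, Squarefree q → (q : ℝ) ≤ X ^ (1 / 4 : ℝ) →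
      (∀ p ∈ q.primeFactors, (Real.log X) ^ 2 < p ∧ p ∉ B) →
      ∀ r : ℤ, |((𝒜.filter (fun x => (q : ℤ) ∣ v x - r)).card : ℝ) - N / q| ≤ Err) →
    ∃ x ∈ 𝒜, ∀ k : κ, ∃ p : ℕ, p.Prime ∧ (Real.log X) ^ 2 < p ∧ (p : ℝ) ≤ X ^ (1 / 10 : ℝ) ∧
      p ∉ B ∧ (p : ℤ) ∣ v x - res p k

/-- the error term -/
lemma err_le (X N P : ℝ) (hX : 16 ≤ X) (hN : 0 < N) (hP : 0 < P) (hPX : P ≤ X ^ (7 / 50 : ℝ)) :
    2 * (X⁻¹ * N) ≤ N / P * X ^ (-(2 / 5) : ℝ) := by
  have hXpos : 0 < X := by linarith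
  have h1 : X ^ (-(2 / 5) : ℝ) = X⁻¹ * X ^ (3 / 5 : ℝ) := by
    rw [← Real.rpow_neg_one X, ← Real.rpow_add hXpos]
    norm_num
  rw [h1]
  have h2 : 2 * P ≤ X ^ (3 / 5 : ℝ) := by
    have h3 : X ^ (3 / 5 : ℝ) = X ^ (23 / 50 : ℝ) * X ^ (7 / 50 : ℝ) := by
      rw [← Real.rpow_add hXpos]
      norm_num
    have h4 : (2 : ℝ) ≤ X ^ (23 / 50 : ℝ) := by
      calc (2 : ℝ) = (16 : ℝ) ^ (1 / 4 : ℝ) := by
            rw [show (16 : ℝ) = 2 ^ (4 : ℝ) by norm_num, ← Real.rpow_mul (by norm_num)]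
            norm_num
        _ ≤ X ^ (1 / 4 : ℝ) := Real.rpow_le_rpow (by norm_num) hX (by norm_num)
        _ ≤ X ^ (23 / 50 : ℝ) := Real.rpow_le_rpow_of_exponent_le (by linarith) (by norm_num)
    rw [h3]
    exact mul_le_mul h4 hPX hP.le (by positivity)
  have h5 : 2 * (X⁻¹ * N) = (N / P * X⁻¹) * (2 * P) := by
    field_simp
  have h6 : N / P * (X⁻¹ * X ^ (3 / 5 : ℝ)) = (N / P * X⁻¹) * X ^ (3 / 5 : ℝ) := by ring
  rw [h5, h6]
  exact mul_le_mul_of_nonneg_left h2 (by positivity)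

/-- **the application of the covering theorem** -/
theorem cover_apply (c₁ X₀ : ℝ) (hcov : CovG c₁ X₀) (δ : ℝ) (hδ : 0 < δ) (d : ℕ) (hd0 : d ≠ 0) (X l : ℝ)
    (hX : X = (d : ℝ) ^ δ) (hlogX : Real.log X = l) (hX0 : X₀ ≤ X) (hX16 : 16 ≤ X) (hl : 400 ≤ l) (hlδ : l = δ * Real.log d)
    (hδl : 1 / (4 * δ) ≤ Real.log l) (M : ℕ) (hM : (M : ℝ) ≤ l ^ 2) (U : Finset ℕ) (hUM : ∀ k ∈ U, k < M)
    (hUc : (U.card : ℝ) ≤ c₁ * l) (P : ℕ) (hPpos : 0 < P) (hPsq : Squarefree P) (hPd : Nat.Coprime P d)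
    (hPfac : ∀ p : ℕ, p.Prime → p ∣ P → (p : ℝ) ≤ l ^ 2) (hPr : (P : ℝ) ≤ X ^ (7 / 50 : ℝ)) (b0 : ℤ)
    {ι : Type} {s : Finset ι} {a : ι → ℕ} (hsp : Spread δ d s a) :
    ∃ i ∈ s, Nat.Coprime (a i) d ∧ X < a i ∧ (P : ℤ) ∣ (a i : ℤ) - b0 ∧
      ∀ k ∈ U, ∃ r : ℕ, r.Prime ∧ (r : ℝ) ≤ X ^ (1 / 10 : ℝ) ∧ (r : ℤ) ∣ (a i : ℤ) + k * d := by
  have hXpos : 0 < X := by linarith
  have hdpos : (0 : ℝ) < d := by exact_mod_cast Nat.pos_of_ne_zero hd0
  have hl0 : 0 < l := by linarith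
  obtain ⟨B, hB⟩ : ∃ B, B = d.primeFactors.filter (fun p : ℕ => l ^ 2 < (p : ℝ)) := ⟨_, rfl⟩
  have hu0 : 0 < Real.log l := lt_of_lt_of_le (by positivity) hδl
  have hBcard : (B.card : ℝ) ≤ 2 * Real.log X := by
    have h1 := card_large d hd0 (l ^ 2) (by nlinarith)
    rw [Real.log_pow, ← hB] at h1
    push_cast at h1
    rw [hlogX]
    have hlogd : 0 < Real.log d := by
      have : 0 < δ * Real.log d := by rw [← hlδ]; exact hl0
      exact (mul_pos_iff_of_pos_left hδ).1 this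
    have h3 : Real.log d ≤ 2 * l * (2 * Real.log l) := by
      have h4 := hδl
      rw [div_le_iff₀ (by positivity)] at h4
      have h5 : Real.log d * 1 ≤ Real.log d * (Real.log l * (4 * δ)) := mul_le_mul_of_nonneg_left h4 hlogd.le
      have h6 : 2 * l * (2 * Real.log l) = Real.log d * (Real.log l * (4 * δ)) := by
        rw [hlδ]
        ring
      rw [h6]
      linarith
    exact le_of_mul_le_mul_right (h1.trans h3) (by positivity)
  have hsN : (0 : ℝ) < s.card := by exact_mod_cast Finset.card_pos.2 hsp.ne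
  have hPr0 : (0 : ℝ) < P := by exact_mod_cast hPpos
  have hdX : (d : ℝ) ^ (-δ) = X⁻¹ := by rw [hX, Real.rpow_neg hdpos.le]
  obtain ⟨𝒜, h𝒜⟩ : ∃ 𝒜, 𝒜 = s.filter (fun i => (P : ℤ) ∣ (a i : ℤ) - b0 ∧
    ¬ ((a i : ℝ) ≤ (d : ℝ) ^ δ ∨ ¬ Nat.Coprime (a i) d)) := ⟨_, rfl⟩
  obtain ⟨i, hi𝒜, hi⟩ := hcov X hX0 B hBcard {k // k ∈ U}
    (by rw [Fintype.card_coe, hlogX]; exact hUc) (fun _ k => -((k.1 : ℤ) * d)) (by
      intro p hp hpl _ hpB k k' hkk' hdvd
      rw [hlogX] at hpl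
      have hpd : ¬ p ∣ d := fun h => hpB (by
        rw [hB, Finset.mem_filter]
        exact ⟨Nat.mem_primeFactors.2 ⟨hp, h, hd0⟩, hpl⟩)
      have hpi : Prime (p : ℤ) := Nat.prime_iff_prime_int.1 hp
      have h2 : -((k.1 : ℤ) * d) - -((k'.1 : ℤ) * d) = -(((k.1 : ℤ) - k'.1) * d) := by ring
      rw [h2, dvd_neg] at hdvd
      rcases hpi.dvd_or_dvd hdvd with h4 | h4
      · have hk := hUM k.1 k.2
        have hk' := hUM k'.1 k'.2
        have hMp : M < p := by
          have : (M : ℝ) < p := hM.trans_lt hpl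
          exact_mod_cast this
        have h5 : ((k.1 : ℤ) - k'.1) = 0 := by
          apply Int.eq_zero_of_abs_lt_dvd h4
          rw [abs_lt]
          constructor <;> omega
        apply hkk'
        apply Subtype.ext
        omega
      · exact hpd (by exact_mod_cast h4))
    ι 𝒜 (fun i => (a i : ℤ)) (s.card / P) (2 * (X⁻¹ * s.card)) (by positivity) (by positivity)
    (err_le X s.card P hX16 hsN hPr0 hPr) (by
      intro q hq hqX hqp r
      rw [hlogX] at hqp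
      have hqpos : 0 < q := Nat.pos_of_ne_zero hq.ne_zero
      have hqd : Nat.Coprime q d := by
        rw [Nat.coprime_iff_gcd_eq_one]
        by_contra hg
        obtain ⟨p, hp, hpg⟩ := Nat.exists_prime_and_dvd hg
        have h1 : p ∣ q := hpg.trans (Nat.gcd_dvd_left _ _)
        have h2 : p ∣ d := hpg.trans (Nat.gcd_dvd_right _ _)
        have h3 := hqp p (Nat.mem_primeFactors.2 ⟨hp, h1, hqpos.ne'⟩)
        exact h3.2 (by
          rw [hB, Finset.mem_filter]
          exact ⟨Nat.mem_primeFactors.2 ⟨hp, h2, hd0⟩, h3.1⟩)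
      have hqP : Nat.Coprime P q := by
        rw [Nat.coprime_iff_gcd_eq_one]
        by_contra hg
        obtain ⟨p, hp, hpg⟩ := Nat.exists_prime_and_dvd hg
        have h1 : p ∣ P := hpg.trans (Nat.gcd_dvd_left _ _)
        have h2 : p ∣ q := hpg.trans (Nat.gcd_dvd_right _ _)
        have h3 := (hqp p (Nat.mem_primeFactors.2 ⟨hp, h2, hqpos.ne'⟩)).1
        exact absurd h3 (not_lt.2 (hPfac p hp h1))
      have hm : ((P * q : ℕ) : ℝ) ≤ (d : ℝ) ^ δ := by
        rw [← hX, Nat.cast_mul]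
        calc (P : ℝ) * q ≤ X ^ (7 / 50 : ℝ) * X ^ (1 / 4 : ℝ) := mul_le_mul hPr hqX (by positivity) (by positivity)
          _ = X ^ (39 / 100 : ℝ) := by rw [← Real.rpow_add hXpos]; norm_num
          _ ≤ X ^ (1 : ℝ) := Real.rpow_le_rpow_of_exponent_le (by linarith) (by norm_num)
          _ = X := Real.rpow_one X
      have h1 := count_cand hsp P q hqP hPsq hq hPd hqd hm b0 r
      rw [hdX, ← h𝒜] at h1
      exact h1)
  rw [h𝒜, Finset.mem_filter] at hi𝒜
  obtain ⟨his, hiP, hibad⟩ := hi𝒜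
  push Not at hibad
  obtain ⟨hiX, hico⟩ := hibad
  rw [← hX] at hiX
  refine ⟨i, his, hico, hiX, hiP, fun k hk => ?_⟩
  obtain ⟨r, hr, _, hrX, _, hrd⟩ := hi ⟨k, hk⟩
  refine ⟨r, hr, hrX, ?_⟩
  rw [sub_neg_eq_add] at hrd
  exact hrd

theorem cov_all : ∃ c₁ : ℝ, 0 < c₁ ∧ ∃ X₀ : ℝ, CovG c₁ X₀ := by
  obtain ⟨c₁, hc₁, X₀, h⟩ := Pool.Agent.TH915.PW.coveringG
  exact ⟨c₁, hc₁, X₀, h⟩

/-- **classes with a large least prime in spread families** -/
theorem record_spread (A δ : ℝ) (hA : 0 ≤ A) (hδ : 0 < δ) (hδ1 : δ ≤ 1) :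
    ∃ c : ℝ, 0 < c ∧ ∃ d₀ : ℕ, ∀ d : ℕ, d₀ ≤ d →
    (∑ p ∈ d.primeFactors with Real.exp (Real.log (Real.log d) * Real.log (Real.log (Real.log (Real.log d))) /
      (20 * Real.log (Real.log (Real.log d)))) < ((p : ℕ) : ℝ), 1 / ((p : ℕ) : ℝ)) ≤ A / Real.log (Real.log d) →
    ∀ (ι : Type) (s : Finset ι) (a : ι → ℕ), Spread δ d s a →
    ∃ i ∈ s, Nat.Coprime (a i) d ∧ ∀ p : ℕ, p.Prime → p % d = a i → c * (Nat.totient d : ℝ) * FF (Real.log d) < p := by
  obtain ⟨c₁, hc₁, X₀, hcov⟩ := cov_all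
  obtain ⟨C, hC0, y₀, hsurv⟩ := survE A hA
  obtain ⟨c₃, hc₃, D₀, htot⟩ := tot_low
  set c' : ℝ := min 1 (c₁ / (8 * C)) with hc'
  have hc'0 : 0 < c' := by rw [hc']; exact lt_min one_pos (by positivity)
  have hc'1 : c' ≤ 1 := min_le_left _ _
  have hc'2 : 8 * C * c' ≤ c₁ := by
    have h1 : c' ≤ c₁ / (8 * C) := min_le_right _ _
    rw [le_div_iff₀ (by positivity)] at h1
    linarith
  obtain ⟨l₀, hev⟩ := ev_rm (1 / (c' * (c₃ / 2))) y₀
  obtain ⟨l₁, hev1⟩ := ev_scale δ hδ hδ1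
  obtain ⟨D₂, hD₂⟩ : ∃ D₂ : ℕ, Real.exp (max (max (400 / δ) l₁) (max (max l₀ 0 / δ) D₀)) ≤ D₂ := exists_nat_ge _
  have hX₀ev := (tendsto_rpow_atTop hδ).eventually_ge_atTop (max X₀ 16)
  obtain ⟨x₁, hx₁⟩ := Filter.eventually_atTop.1 hX₀ev
  obtain ⟨D₃, hD₃⟩ : ∃ D₃ : ℕ, x₁ ≤ D₃ := exists_nat_ge _
  refine ⟨c' * δ / 4, by positivity, max D₂ D₃, fun d hd hcond ι s₀ a hsp => ?_⟩
  have hd2 : D₂ ≤ d := (le_max_left _ _).trans hd
  have hd3 : D₃ ≤ d := (le_max_right _ _).trans hd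
  obtain ⟨X, hX⟩ : ∃ X : ℝ, X = (d : ℝ) ^ δ := ⟨_, rfl⟩
  have hX16' : max X₀ 16 ≤ X := by
    rw [hX]
    exact hx₁ d (hD₃.trans (by exact_mod_cast hd3))
  have hX0 : X₀ ≤ X := (le_max_left _ _).trans hX16'
  have hX16 : 16 ≤ X := (le_max_right _ _).trans hX16'
  have hXpos : 0 < X := by linarith
  have hexp : Real.exp (max (max (400 / δ) l₁) (max (max l₀ 0 / δ) D₀)) ≤ d := hD₂.trans (by exact_mod_cast hd2)
  have hdpos : (0 : ℝ) < d := (Real.exp_pos _).trans_le hexp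
  have hd0 : d ≠ 0 := by
    intro h; rw [h] at hdpos; simp at hdpos
  have hlm : max (max (400 / δ) l₁) (max (max l₀ 0 / δ) D₀) ≤ Real.log d := by
    rw [Real.le_log_iff_exp_le hdpos]; exact hexp
  have hl400 : 400 / δ ≤ Real.log d := ((le_max_left _ _).trans (le_max_left _ _)).trans hlm
  have hll1 : l₁ ≤ Real.log d := ((le_max_right _ _).trans (le_max_left _ _)).trans hlm
  have hll0 : max l₀ 0 / δ ≤ Real.log d := ((le_max_left _ _).trans (le_max_right _ _)).trans hlm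
  have hlD0 : D₀ ≤ Real.log d := ((le_max_right _ _).trans (le_max_right _ _)).trans hlm
  have htd := htot d hlD0
  have hl : 400 ≤ δ * Real.log d := by
    rw [div_le_iff₀ hδ] at hl400
    linarith
  have hll0' : l₀ ≤ δ * Real.log d := by
    rw [div_le_iff₀ hδ] at hll0
    have := le_max_left l₀ 0
    linarith
  obtain ⟨r1, r2, r3, r4, r5, r6, r7⟩ := hev1 (Real.log d) hll1
  obtain ⟨-, ey0, esq, eL2, eL3, eL4, ea, eb, eK, eq⟩ := hev (δ * Real.log d) hll0'
  have hlogX : Real.log X = δ * Real.log d := by rw [hX, Real.log_rpow hdpos]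
  set l₂ := Real.log d with hl2def
  set l := δ * l₂ with hldef
  set u₂ := Real.log l₂ with hu2
  set s₂ := Real.log u₂ with hs2
  set w₂ := Real.log s₂ with hw2
  set u := Real.log l with hu
  set s := Real.log u with hs
  set w := Real.log s with hw
  have hl2l : l ≤ l₂ := by
    rw [hldef]
    have : 0 < l₂ := by
      have : 0 < 400 / δ := by positivity
      linarith
    nlinarith
  have hu2pos : 0 < u₂ := by linarith
  have hl10 : l / 10 < l ^ 2 := by nlinarith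
  set Ny := ⌊l / 10⌋₊ with hNy
  have hNyle : (Ny : ℝ) ≤ l / 10 := Nat.floor_le (by linarith)
  set pf := d.primeFactors with hpf
  set S := ((Finset.Icc 1 Ny).filter Nat.Prime) \ pf with hS
  have hSp : ∀ p ∈ S, p.Prime := by
    intro p hp
    rw [hS, Finset.mem_sdiff, Finset.mem_filter] at hp
    exact hp.1.2
  have hSle : ∀ p ∈ S, p ≤ Ny := by
    intro p hp
    rw [hS, Finset.mem_sdiff, Finset.mem_filter, Finset.mem_Icc] at hp
    exact hp.1.1.2
  have hSd : ∀ p ∈ S, ¬ p ∣ d := by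
    intro p hp hpd
    have h1 := hSp p hp
    rw [hS, Finset.mem_sdiff] at hp
    exact hp.2 (Nat.mem_primeFactors.2 ⟨h1, hpd, hd0⟩)
  set P := ∏ p ∈ S, p with hP
  have hPpos : 0 < P := Finset.prod_pos fun p hp => (hSp p hp).pos
  have hPd : Nat.Coprime P d := by
    rw [hP]
    apply Nat.Coprime.prod_left
    intro p hp
    exact (Nat.Prime.coprime_iff_not_dvd (hSp p hp)).2 (hSd p hp)
  have hPsq : Squarefree P := by
    rw [hP]
    exact (Finset.squarefree_prod_of_pairwise_isCoprime (fun p hp q hq hpq => by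
      rw [Function.onFun, ← Nat.coprime_iff_isRelPrime]
      exact (Nat.coprime_primes (hSp p hp) (hSp q hq)).2 hpq) fun p hp => (hSp p hp).squarefree)
  have hPle : P ≤ 4 ^ Ny := by
    refine le_trans ?_ (primorial_le_four_pow Ny)
    unfold primorial
    apply Finset.prod_le_prod_of_subset_of_one_le'
    · intro p hp
      rw [Finset.mem_filter, Finset.mem_range]
      exact ⟨Nat.lt_succ_of_le (hSle p hp), hSp p hp⟩
    · intro p hp _
      rw [Finset.mem_filter] at hp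
      exact hp.2.one_lt.le
  have hXexp : ∀ e : ℝ, X ^ e = Real.exp (l * e) := by
    intro e
    rw [Real.rpow_def_of_pos hXpos, hlogX]
  have hPr : (P : ℝ) ≤ X ^ (7 / 50 : ℝ) := by
    have h1 : (P : ℝ) ≤ (4 : ℝ) ^ Ny := by exact_mod_cast hPle
    have h2 : (4 : ℝ) ^ Ny = Real.exp (Ny * Real.log 4) := by
      rw [← Real.rpow_natCast, Real.rpow_def_of_pos (by norm_num)]
      ring_nf
    rw [hXexp]
    rw [h2] at h1
    refine h1.trans (Real.exp_le_exp.2 ?_)
    have h4 : Real.log 4 = 2 * Real.log 2 := by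
      rw [show (4 : ℝ) = 2 ^ 2 by norm_num, Real.log_pow]; push_cast; ring
    have h5 := Real.log_two_lt_d9
    have h6 : Real.log 4 ≤ 7 / 5 := by linarith
    have h7 : 0 ≤ Real.log 4 := by rw [h4]; have := Real.log_two_gt_d9; linarith
    nlinarith
  -- the number of shifts
  have hl0 : 0 < l := by linarith
  have hu0 : 0 < u := by linarith
  have hs0 : 0 < s := by linarith
  have hw0 : 0 < w := by linarith
  have hFF : FF l = l * u ^ 2 * (w / s ^ 2) := by
    unfold FF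
    rw [← hu, ← hs, ← hw]; ring
  set t : ℝ := c' * (Nat.totient d : ℝ) / d * FF l with ht
  set M := ⌊t⌋₊ with hM
  have hF0 : 0 < FF l := by rw [hFF]; positivity
  have ht0 : 0 ≤ t := by
    rw [ht]
    positivity
  have hMt : (M : ℝ) ≤ t := Nat.floor_le ht0
  have hphi1 : (Nat.totient d : ℝ) / d ≤ 1 := by
    rw [div_le_one hdpos]
    exact_mod_cast Nat.totient_le d
  have hphi0 : 0 < (Nat.totient d : ℝ) / d := by
    have : 0 < Nat.totient d := Nat.totient_pos.2 (Nat.pos_of_ne_zero hd0)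
    positivity
  have htF : t ≤ FF l := by
    have e : t = c' * ((Nat.totient d : ℝ) / d) * FF l := by rw [ht]; ring
    rw [e]
    have h1 : c' * ((Nat.totient d : ℝ) / d) ≤ 1 := by nlinarith
    nlinarith
  have hFl : FF l ≤ l * u ^ 2 * (1 / 100) := by
    rw [hFF]
    apply mul_le_mul_of_nonneg_left eq (by positivity)
  have htl : t ≤ l ^ 2 := by
    have h1 : l * u ^ 2 * (1 / 100) ≤ l * l := by
      have := mul_le_mul_of_nonneg_left esq hl0.le
      nlinarith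
    calc t ≤ _ := htF
      _ ≤ _ := hFl
      _ ≤ l * l := h1
      _ = l ^ 2 := by ring
  -- `y = l / 10`
  set y : ℝ := l / 10 with hy
  have hy0 : 0 < y := by rw [hy]; positivity
  have hlyu : Real.log y ≤ u := Real.log_le_log hy0 (by rw [hy]; linarith)
  have hly0 : 0 < Real.log y := lt_of_lt_of_le (by linarith) ea
  have hlly : Real.log (Real.log y) ≤ s := Real.log_le_log hly0 hlyu
  have hlly0 : 0 < Real.log (Real.log y) := by
    have h1 : 1 < Real.log y := by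
      have : 100 ≤ u := by
        have := Real.log_le_sub_one_of_pos hu0
        linarith
      linarith
    exact Real.log_pos h1
  have hML : (M : ℝ) ≤ y * (Real.log y) ^ 2 := by
    refine hMt.trans (htF.trans (hFl.trans ?_))
    have h1 : u ^ 2 * (9 / 16) ≤ (Real.log y) ^ 2 := by
      calc u ^ 2 * (9 / 16) = (3 / 4 * u) ^ 2 := by ring
        _ ≤ _ := pow_le_pow_left₀ (by positivity) ea 2
    rw [hy]
    have h2 : 0 ≤ l * u ^ 2 := by positivity
    have h3 : l * (u ^ 2 * (9 / 16)) ≤ l * (Real.log (l / 10)) ^ 2 :=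
      mul_le_mul_of_nonneg_left h1 hl0.le
    nlinarith
  have hyt : y + 1 ≤ t := by
    have h3 : (c₃ / 2) / u ≤ (Nat.totient d : ℝ) / d := by
      rw [totient_div d hd0]
      refine le_trans ?_ htd
      rw [div_div, div_le_div_iff₀ (by positivity) (by positivity)]
      have : u₂ ≤ 2 * u := by linarith
      nlinarith
    have e : t = (c' * FF l) * ((Nat.totient d : ℝ) / d) := by rw [ht]; ring
    rw [e]
    have h4 : (c' * FF l) * ((c₃ / 2) / u) ≤ (c' * FF l) * ((Nat.totient d : ℝ) / d) :=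
      mul_le_mul_of_nonneg_left h3 (by positivity)
    have h5 : (c' * FF l) * ((c₃ / 2) / u) = l * ((c' * (c₃ / 2)) * (u * w / s ^ 2)) := by
      rw [hFF]; field_simp
    have h6 : 1 / (c' * (c₃ / 2)) ≤ u * w / s ^ 2 := by
      rw [le_div_iff₀ (by positivity)]
      calc 1 / (c' * (c₃ / 2)) * s ^ 2 ≤ u := eK
        _ ≤ u * w := by nlinarith
    have h7 : 1 ≤ (c' * (c₃ / 2)) * (u * w / s ^ 2) := by
      rw [div_le_iff₀ (by positivity)] at h6
      linarith
    have h8 : l * 1 ≤ l * ((c' * (c₃ / 2)) * (u * w / s ^ 2)) := mul_le_mul_of_nonneg_left h7 hl0.le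
    rw [hy]
    linarith
  have hMy : y ≤ M := by
    have h1 : t < M + 1 := Nat.lt_floor_add_one t
    linarith
  -- the condition on the prime factors
  have hcond' : (∑ p ∈ pf with Real.exp (Real.log y * Real.log (Real.log (Real.log y)) /
      (10 * Real.log (Real.log y))) < ((p : ℕ) : ℝ), 1 / ((p : ℕ) : ℝ)) ≤ A / Real.log y := by
    have h1 : u₂ * w₂ / (20 * s₂) ≤ Real.log y * Real.log (Real.log (Real.log y)) /
        (10 * Real.log (Real.log y)) := by
      have hs20 : 0 < s₂ := by linarith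
      have hw20 : 0 < w₂ := by linarith
      rw [div_le_div_iff₀ (by positivity) (by positivity)]
      have h2 : (3 / 4 * (49 / 50 * u₂)) * (3 / 4 * (49 / 50 * w₂)) ≤ Real.log y * Real.log (Real.log (Real.log y)) :=
        mul_le_mul ((mul_le_mul_of_nonneg_left r1 (by norm_num)).trans ea)
          ((mul_le_mul_of_nonneg_left r5 (by norm_num)).trans eb) (by positivity) hly0.le
      have h3 : 0 ≤ u₂ * w₂ := by positivity
      calc u₂ * w₂ * (10 * Real.log (Real.log y)) ≤ u₂ * w₂ * (10 * s₂) := by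
            have : Real.log (Real.log y) ≤ s₂ := hlly.trans r4
            gcongr
        _ ≤ (3 / 4 * (49 / 50 * u₂) * (3 / 4 * (49 / 50 * w₂))) * (20 * s₂) := by nlinarith [mul_nonneg h3 hs20.le]
        _ ≤ _ := by gcongr
    have h2 : (∑ p ∈ pf with Real.exp (Real.log y * Real.log (Real.log (Real.log y)) /
      (10 * Real.log (Real.log y))) < ((p : ℕ) : ℝ), 1 / ((p : ℕ) : ℝ)) ≤
      (∑ p ∈ pf with Real.exp (u₂ * w₂ / (20 * s₂)) < ((p : ℕ) : ℝ), 1 / ((p : ℕ) : ℝ)) := by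
      apply Finset.sum_le_sum_of_subset_of_nonneg
      · intro p hp
        rw [Finset.mem_filter] at hp ⊢
        exact ⟨hp.1, (Real.exp_le_exp.2 h1).trans_lt hp.2⟩
      · intro p _ _
        positivity
    refine h2.trans (hcond.trans ?_)
    exact div_le_div_of_nonneg_left hA hly0 (hlyu.trans r2)
  obtain ⟨β, hβ1, hβ2⟩ := hsurv y (by rw [hy]; exact ey0) M hMy hML pf
    (fun p hp => Nat.prime_of_mem_primeFactors hp) hcond'
  set b : ℕ → ℕ := fun p => β p + p - 1 with hb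
  set U := (Finset.range M).filter (fun k => ∀ p ∈ S, ¬ k ≡ b p [MOD p]) with hU
  have hbeq : ∀ k p : ℕ, p.Prime → (k + 1 ≡ β p [MOD p] → k ≡ b p [MOD p]) := by
    intro k p hp h
    have hp1 := hp.one_lt.le
    have h1 : k + 1 ≡ b p + 1 [MOD p] := by
      have h2 : b p + 1 = β p + p := by simp only [hb]; omega
      rw [h2]
      calc k + 1 ≡ β p [MOD p] := h
        _ ≡ β p + p [MOD p] := by
          have : β p + 0 ≡ β p + p [MOD p] := Nat.ModEq.add_left _ (by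
            rw [Nat.ModEq]; simp)
          simpa using this
    exact Nat.ModEq.add_right_cancel' 1 h1
  have hUcard : (U.card : ℝ) ≤ c₁ * l := by
    have h0 : U.card ≤ ((Finset.Icc 1 M).filter (fun k => ∀ p : ℕ, p.Prime → p ∉ pf → (p : ℝ) ≤ y →
        ¬ k ≡ β p [MOD p])).card := by
      rw [← Finset.card_image_of_injective U (add_left_injective 1)]
      apply Finset.card_le_card
      intro k hk
      rw [Finset.mem_image] at hk
      obtain ⟨k', hk', rfl⟩ := hk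
      rw [hU, Finset.mem_filter, Finset.mem_range] at hk'
      rw [Finset.mem_filter, Finset.mem_Icc]
      refine ⟨⟨by omega, by omega⟩, fun p hp hpd hpy h => ?_⟩
      refine hk'.2 p ?_ (hbeq k' p hp h)
      rw [hS, Finset.mem_sdiff, Finset.mem_filter, Finset.mem_Icc]
      exact ⟨⟨⟨hp.one_lt.le, by rw [hNy]; exact Nat.le_floor hpy⟩, hp⟩, hpd⟩
    have h0' : (U.card : ℝ) ≤ (((Finset.Icc 1 M).filter (fun k => ∀ p : ℕ, p.Prime → p ∉ pf → (p : ℝ) ≤ y →
        ¬ k ≡ β p [MOD p])).card : ℝ) := by exact_mod_cast h0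
    rw [← totient_div d hd0] at hβ2
    have h1 : (U.card : ℝ) * ((Nat.totient d : ℝ) / d) ≤ C * M * (Real.log (Real.log y)) ^ 2 /
        ((Real.log y) ^ 2 * Real.log (Real.log (Real.log y))) :=
      (mul_le_mul_of_nonneg_right h0' hphi0.le).trans hβ2
    have h2 : C * M * (Real.log (Real.log y)) ^ 2 /
        ((Real.log y) ^ 2 * Real.log (Real.log (Real.log y))) ≤
        C * t * s ^ 2 / ((3 / 4 * u) ^ 2 * (3 / 4 * w)) := by
      apply div_le_div₀ (by positivity) _ (by positivity) _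
      · gcongr
      · gcongr
    have h3 : C * t * s ^ 2 / ((3 / 4 * u) ^ 2 * (3 / 4 * w)) =
        (64 / 27 * C * c' * l) * ((Nat.totient d : ℝ) / d) := by
      rw [ht, hFF]
      field_simp
      norm_num
    have h4 : (U.card : ℝ) ≤ 64 / 27 * C * c' * l := by
      rw [h3] at h2
      exact le_of_mul_le_mul_right (h1.trans h2) hphi0
    refine h4.trans ?_
    apply mul_le_mul_of_nonneg_right _ hl0.le
    have : 0 ≤ C * c' := by positivity
    linarith
  -- the residue class modulo the small primes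
  obtain ⟨b0, hb0, hb0'⟩ := crt_small S hSp (fun p => b p * d)
  rw [← hP] at hb0
  have hPfac : ∀ p : ℕ, p.Prime → p ∣ P → (p : ℝ) ≤ l ^ 2 := by
    intro p hp hpP
    rw [hP] at hpP
    obtain ⟨r, hr, hpr⟩ := (Prime.dvd_finset_prod_iff hp.prime _).1 hpP
    have h1 : p = r := (Nat.prime_dvd_prime_iff_eq hp (hSp r hr)).1 hpr
    have h2 : (p : ℝ) ≤ l / 10 := by
      rw [h1]
      exact (by exact_mod_cast hSle r hr : (r : ℝ) ≤ Ny).trans hNyle
    exact h2.trans hl10.le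
  obtain ⟨i, his, hico, hiX, hiP, hi⟩ := cover_apply c₁ X₀ hcov δ hδ d hd0 X l hX hlogX hX0 hX16 hl hldef r6 M
    (hMt.trans htl) U (fun k hk => by
      rw [hU, Finset.mem_filter, Finset.mem_range] at hk
      exact hk.1) hUcard P hPpos hPsq hPd hPfac hPr b0 hsp
  refine ⟨i, his, hico, fun p hp hpa => ?_⟩
  set k := p / d with hk
  have hpk : p = a i + k * d := by
    have := Nat.mod_add_div p d
    rw [hpa] at this
    rw [hk]
    linarith [this, mul_comm (p / d) d]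
  have hap : a i ≤ p := by rw [hpk]; omega
  have hapr : (a i : ℝ) ≤ p := by exact_mod_cast hap
  -- `M ≤ k`
  have hMk : M ≤ k := by
    by_contra hlt
    push Not at hlt
    by_cases hkU : k ∈ U
    · obtain ⟨r, hr, hrX, hrd⟩ := hi k hkU
      have h2 : (r : ℤ) ∣ (p : ℤ) := by
        have e : (p : ℤ) = (a i : ℤ) + (k : ℤ) * d := by
          rw [hpk]
          push_cast
          ring
        rw [e]
        exact hrd
      have h3 : r ∣ p := by exact_mod_cast h2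
      have h4 : r = p := (Nat.prime_dvd_prime_iff_eq hr hp).1 h3
      have h5 : X ^ (1 / 10 : ℝ) ≤ X := by
        calc X ^ (1 / 10 : ℝ) ≤ X ^ (1 : ℝ) := Real.rpow_le_rpow_of_exponent_le (by linarith) (by norm_num)
          _ = X := Real.rpow_one X
      rw [h4] at hrX
      linarith
    · have h1 : ∃ r ∈ S, k ≡ b r [MOD r] := by
        by_contra hcon
        push Not at hcon
        exact hkU (Finset.mem_filter.2 ⟨Finset.mem_range.2 hlt, hcon⟩)
      obtain ⟨r, hr, hkr⟩ := h1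
      have h2 : r ∣ b0 + b r * d := hb0' r hr
      have h3 : r ∣ P := Finset.dvd_prod_of_mem _ hr
      have h4 : (r : ℤ) ∣ (p : ℤ) := by
        have e1 : (p : ℤ) = ((a i : ℤ) - b0) + (((k : ℕ) : ℤ) - ((b r : ℕ) : ℤ)) * d + (((b0 + b r * d : ℕ)) : ℤ) := by
          rw [hpk]
          push_cast
          ring
        rw [e1]
        refine dvd_add (dvd_add ((by exact_mod_cast h3 : (r : ℤ) ∣ (P : ℤ)).trans hiP) ?_) (by exact_mod_cast h2)
        exact Dvd.dvd.mul_right ((Nat.modEq_iff_dvd).1 hkr.symm) _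
      have h5 : r ∣ p := by exact_mod_cast h4
      have h6 : r = p := (Nat.prime_dvd_prime_iff_eq (hSp r hr) hp).1 h5
      have h7 : (p : ℝ) ≤ l / 10 := by
        rw [← h6]
        exact (by exact_mod_cast hSle r hr : (r : ℝ) ≤ Ny).trans hNyle
      have h8 : l ≤ X := by
        have := Real.log_le_sub_one_of_pos hXpos
        rw [hlogX] at this
        linarith
      linarith
  -- conclusion
  have hpr : (p : ℝ) = a i + k * d := by
    have : ((p : ℕ) : ℝ) = ((a i + k * d : ℕ) : ℝ) := by rw [← hpk]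
    rw [this]; push_cast; ring
  have hkM : (M : ℝ) ≤ k := by exact_mod_cast hMk
  have htM : t < M + 1 := Nat.lt_floor_add_one t
  have hFF2 : δ / 2 * FF l₂ ≤ FF l := by
    have e1 : FF l₂ = l₂ * u₂ ^ 2 * w₂ / s₂ ^ 2 := rfl
    have e2 : FF l = l * u ^ 2 * w / s ^ 2 := rfl
    have hs20 : 0 < s₂ := by linarith
    have hw20 : 0 < w₂ := by linarith
    have hl20 : 0 < l₂ := by linarith
    rw [e1, e2]
    have h1 : (49 / 50 * u₂) ^ 2 * (49 / 50 * w₂) ≤ u ^ 2 * w :=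
      mul_le_mul (pow_le_pow_left₀ (by positivity) r1 2) r5 (by positivity) (by positivity)
    have h2 : s ^ 2 ≤ s₂ ^ 2 := pow_le_pow_left₀ hs0.le r4 2
    calc δ / 2 * (l₂ * u₂ ^ 2 * w₂ / s₂ ^ 2) = (l * ((1 / 2) * (u₂ ^ 2 * w₂))) / s₂ ^ 2 := by
          rw [hldef]; ring
      _ ≤ (l * (u ^ 2 * w)) / s₂ ^ 2 := by
          apply div_le_div_of_nonneg_right _ (by positivity)
          apply mul_le_mul_of_nonneg_left _ hl0.le
          have h3 : 0 ≤ u₂ ^ 2 * w₂ := by positivity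
          have h4 : (49 / 50 * u₂) ^ 2 * (49 / 50 * w₂) = 117649 / 125000 * (u₂ ^ 2 * w₂) := by ring
          linarith only [h1, h3, h4]
      _ ≤ (l * (u ^ 2 * w)) / s ^ 2 := div_le_div_of_nonneg_left (by positivity) (by positivity) h2
      _ = _ := by ring
  have h10 : c' * δ / 4 * (Nat.totient d : ℝ) * FF l₂ ≤ t / 2 * d := by
    have e1 : t / 2 * d = c' / 2 * (Nat.totient d : ℝ) * FF l := by
      rw [ht]; field_simp
    rw [e1]
    calc c' * δ / 4 * (Nat.totient d : ℝ) * FF l₂ = c' / 2 * (Nat.totient d : ℝ) * (δ / 2 * FF l₂) := by ring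
      _ ≤ _ := mul_le_mul_of_nonneg_left hFF2 (by positivity)
  refine lt_of_le_of_lt h10 ?_
  rw [hpr]
  have h11 : t / 2 ≤ k := by
    have : 2 ≤ t := by
      have : 40 ≤ y := by rw [hy]; linarith
      linarith
    linarith
  have h12 : t / 2 * d ≤ k * d := mul_le_mul_of_nonneg_right h11 hdpos.le
  have h13 : (0 : ℝ) < a i := by linarith
  linarith

end Pool.Agent.J6H92.LPr
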