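import Pool.Agent.J6H92.LPr.Main
import Pool.Agent.N384.MQ.Dec
import Pool.Agent.N384.MQ.Gen

/-!
# Families of residues with small Fourier coefficients are spread
-/

set_option autoImplicit false
set_option maxHeartbeats 4000000

namespace Pool.Agent.J6H92.LPr

open Finset Filter Pool.Agent.N384.MQ Pool.Agent.H807R2.Dav

open scoped Classical

lemma char_sum {ι : Type} {q : ℕ} [NeZero q] {η : ℝ} (hη : 0 ≤ η) {s : Finset ι} (hs : s.Nonempty) {y : ι → ZMod q}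
    (hf : Flat q η s y) (m h : ℕ) (hh : 0 < h) (hm : h < m) :
    ‖∑ i ∈ s, ee ((h : ℝ) / m * ((y i).val : ℕ))‖ ≤ ((m : ℝ) / q + η * (42 + 3 * Real.log q)) * s.card := by
  have hs0 : (0 : ℝ) < s.card := by exact_mod_cast hs.card_pos
  have hs0' : (s.card : ℂ) ≠ 0 := by exact_mod_cast hs0.ne'
  have hm0 : (0 : ℝ) < m := by exact_mod_cast (by omega : 0 < m)
  have hsm := sm_dis hs hf
  have h1 := hsm.char hη ((h : ℝ) / m) (1 / m) (by positivity) (fun n => by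
    have e : (h : ℝ) / m - n = (((h : ℤ) - n * m : ℤ) : ℝ) / m := by
      push_cast
      field_simp
    rw [e, abs_div, abs_of_pos hm0]
    apply div_le_div_of_nonneg_right _ hm0.le
    have hne : (h : ℤ) - n * m ≠ 0 := by
      intro h0
      have h2 : (m : ℤ) ∣ h := ⟨n, by linarith⟩
      have h3 : m ∣ h := by exact_mod_cast h2
      exact absurd (Nat.le_of_dvd hh h3) (by omega)
    have h4 := Int.one_le_abs hne
    exact_mod_cast h4)
  rw [dis_sum s y q le_rfl (fun v => ee ((h : ℝ) / m * (v : ℕ))), norm_mul, norm_div, norm_one, Complex.norm_natCast,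
    one_div_mul_eq_div, div_le_iff₀ hs0] at h1
  refine h1.trans (le_of_eq ?_)
  congr 2
  field_simp

/-- the number of the members in a residue class -/
lemma class_count {ι : Type} {q : ℕ} [NeZero q] {η : ℝ} (hη : 0 ≤ η) {s : Finset ι} (hs : s.Nonempty) {y : ι → ZMod q}
    (hf : Flat q η s y) (m : ℕ) (hm : 1 ≤ m) (r : ℤ) :
    |((s.filter (fun i => (m : ℤ) ∣ ((y i).val : ℤ) - r)).card : ℝ) - s.card / m| ≤
      ((m : ℝ) / q + η * (42 + 3 * Real.log q)) * s.card := by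
  have hq1 : 1 ≤ q := Nat.pos_of_ne_zero (NeZero.ne q)
  have hq0 : (0 : ℝ) < q := by exact_mod_cast hq1
  have hm0 : (0 : ℝ) < m := by exact_mod_cast hm
  have hmC : (m : ℂ) ≠ 0 := by exact_mod_cast hm0.ne'
  obtain ⟨E, hE⟩ : ∃ E : ℝ, E = ((m : ℝ) / q + η * (42 + 3 * Real.log q)) * s.card := ⟨_, rfl⟩
  have hE0 : 0 ≤ E := by
    rw [hE]
    have : 0 ≤ Real.log q := Real.log_natCast_nonneg q
    positivity
  rw [← hE]
  -- the expansion
  have h1 : (((s.filter (fun i => (m : ℤ) ∣ ((y i).val : ℤ) - r)).card : ℝ) : ℂ) =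
      (1 / (m : ℂ)) * ∑ h ∈ range m, ee (-((h : ℝ) * r / m)) * ∑ i ∈ s, ee ((h : ℝ) / m * ((y i).val : ℕ)) := by
    have h2 : ∀ h ∈ range m, ee (-((h : ℝ) * r / m)) * ∑ i ∈ s, ee ((h : ℝ) / m * ((y i).val : ℕ)) =
        ∑ i ∈ s, ee ((h : ℝ) * ((((((y i).val : ℕ) : ℤ) - r : ℤ) : ℝ) / m)) := by
      intro h _
      rw [mul_sum]
      refine sum_congr rfl fun i _ => ?_
      rw [← ee_add]
      congr 1
      push_cast
      ring
    rw [sum_congr rfl h2, sum_comm]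
    have h3 : ∀ i ∈ s, ∑ h ∈ range m, ee ((h : ℝ) * ((((((y i).val : ℕ) : ℤ) - r : ℤ) : ℝ) / m)) =
        (m : ℂ) * (if (m : ℤ) ∣ ((y i).val : ℤ) - r then 1 else 0) := by
      intro i _
      rw [Pool.Agent.H373R2.T7.orth m hm]
      split_ifs <;> simp
    rw [sum_congr rfl h3, ← mul_sum, ← mul_assoc, one_div, inv_mul_cancel₀ hmC, one_mul, sum_boole]
    push_cast
    rfl
  have h4 : (((((s.filter (fun i => (m : ℤ) ∣ ((y i).val : ℤ) - r)).card : ℝ) - s.card / m : ℝ)) : ℂ) =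
      (1 / (m : ℂ)) * ∑ h ∈ (range m).erase 0, ee (-((h : ℝ) * r / m)) * ∑ i ∈ s, ee ((h : ℝ) / m * ((y i).val : ℕ)) := by
    rw [Complex.ofReal_sub, h1, ← add_sum_erase (range m) _ (mem_range.2 (by omega : 0 < m))]
    have e1 : ee (-(((0 : ℕ) : ℝ) * r / m)) * ∑ i ∈ s, ee (((0 : ℕ) : ℝ) / m * ((y i).val : ℕ)) = (s.card : ℂ) := by
      simp [ee_zero]
    rw [e1]
    push_cast
    ring
  have h5 : ‖(((((s.filter (fun i => (m : ℤ) ∣ ((y i).val : ℤ) - r)).card : ℝ) - s.card / m : ℝ)) : ℂ)‖ ≤ E := by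
    rw [h4, norm_mul, norm_div, norm_one, Complex.norm_natCast]
    have h6 : ‖∑ h ∈ (range m).erase 0, ee (-((h : ℝ) * r / m)) * ∑ i ∈ s, ee ((h : ℝ) / m * ((y i).val : ℕ))‖ ≤ m * E := by
      refine (norm_sum_le _ _).trans ?_
      have h7 : ∀ h ∈ (range m).erase 0, ‖ee (-((h : ℝ) * r / m)) * ∑ i ∈ s, ee ((h : ℝ) / m * ((y i).val : ℕ))‖ ≤ E := by
        intro h hh
        rw [mem_erase, mem_range] at hh
        rw [norm_mul, show ‖ee (-((h : ℝ) * r / m))‖ = 1 from by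
          rw [ee_eq]
          exact Complex.norm_exp_ofReal_mul_I _, one_mul, hE]
        exact char_sum hη hs hf m h (Nat.pos_of_ne_zero hh.1) hh.2
      refine (sum_le_card_nsmul _ _ _ h7).trans ?_
      rw [nsmul_eq_mul]
      apply mul_le_mul_of_nonneg_right _ hE0
      have : ((range m).erase 0).card ≤ m := (card_erase_le).trans (by rw [card_range])
      exact_mod_cast this
    rw [one_div_mul_eq_div, div_le_iff₀ hm0]
    linarith
  rwa [Complex.norm_real, Real.norm_eq_abs] at h5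

/-- the number of the members in an initial interval -/
lemma interval_count {ι : Type} {q : ℕ} [NeZero q] {η : ℝ} (hη : 0 ≤ η) {s : Finset ι} (hs : s.Nonempty) {y : ι → ZMod q}
    (hf : Flat q η s y) (b : ℕ) (hb : b ≤ q) :
    ((s.filter (fun i => (y i).val < b)).card : ℝ) ≤ ((b : ℝ) / q + η * (42 + 3 * Real.log q)) * s.card := by
  have hs0 : (0 : ℝ) < s.card := by exact_mod_cast hs.card_pos
  have hsm := sm_dis hs hf
  have h1 := hsm.interval hη 0 b (Nat.zero_le _) hb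
  have h2 : ∑ v ∈ range q, dis s y v * (if v < b then 1 else 0) = (∑ i ∈ s, if (y i).val < b then (1 : ℝ) else 0) / s.card :=
    dis_sum_real s y q le_rfl (fun v => if v < b then 1 else 0)
  have h3 : ∑ v ∈ range q, dis s y v * (if v < b then 1 else 0) = ∑ v ∈ Ico 0 b, dis s y v := by
    simp only [mul_ite, mul_one, mul_zero]
    rw [← sum_filter]
    apply sum_congr _ fun _ _ => rfl
    ext v
    rw [mem_filter, mem_range, mem_Ico]
    omega
  rw [← Complex.ofReal_sum, Complex.norm_real, Real.norm_eq_abs] at h1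
  rw [h3, sum_boole] at h2
  rw [h2] at h1
  have h4 := (le_abs_self _).trans h1
  rw [div_le_iff₀ hs0] at h4
  refine h4.trans (le_of_eq ?_)
  push_cast
  ring

/-- the exponent `δ` is absorbed -/
lemma ev_flat (δ : ℝ) (hδ : 0 < δ) (hδ1 : δ ≤ 1 / 3) : ∃ q₀ : ℕ, ∀ q : ℕ, q₀ ≤ q → 64 ≤ q ∧
    42 + 3 * Real.log q ≤ 1 / 4 * (q : ℝ) ^ δ ∧ (q : ℝ) ^ δ / q ≤ 1 / 4 * (q : ℝ) ^ (-δ) ∧ 1 ≤ (q : ℝ) ^ δ := by
  have h1 := (isLittleO_log_rpow_atTop hδ).bound (show (0 : ℝ) < 1 / 24 by norm_num)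
  have h2 := (tendsto_rpow_atTop hδ).eventually_ge_atTop (8 * 42)
  obtain ⟨x₀, h⟩ := eventually_atTop.1 ((h1.and h2).and (eventually_ge_atTop (64 : ℝ)))
  obtain ⟨q₀, hq₀⟩ := exists_nat_ge x₀
  refine ⟨q₀, fun q hq => ?_⟩
  obtain ⟨⟨h3, h4⟩, h5⟩ := h q (hq₀.trans (by exact_mod_cast hq))
  have hq1 : (1 : ℝ) ≤ q := by linarith
  rw [Real.norm_of_nonneg (Real.log_nonneg hq1), Real.norm_of_nonneg (by positivity)] at h3
  refine ⟨by exact_mod_cast h5, by linarith, ?_, by linarith⟩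
  have hq0 : (0 : ℝ) < q := by linarith
  have e1 : (q : ℝ) ^ δ / q = (q : ℝ) ^ (-δ) * (q : ℝ) ^ (2 * δ - 1) := by
    rw [← Real.rpow_add hq0]
    have : (q : ℝ) ^ δ / q = (q : ℝ) ^ δ / (q : ℝ) ^ (1 : ℝ) := by rw [Real.rpow_one]
    rw [this, ← Real.rpow_sub hq0]
    congr 1
    ring
  rw [e1, mul_comm]
  apply mul_le_mul_of_nonneg_right _ (by positivity)
  calc (q : ℝ) ^ (2 * δ - 1) ≤ (q : ℝ) ^ (-(1 / 3) : ℝ) := Real.rpow_le_rpow_of_exponent_le hq1 (by linarith)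
    _ = ((q : ℝ) ^ (1 / 3 : ℝ))⁻¹ := Real.rpow_neg hq0.le _
    _ ≤ (4 : ℝ)⁻¹ := by
        apply inv_anti₀ (by norm_num)
        calc (4 : ℝ) = (64 : ℝ) ^ (1 / 3 : ℝ) := by
              rw [show (64 : ℝ) = 4 ^ (3 : ℝ) by norm_num, ← Real.rpow_mul (by norm_num)]
              norm_num
          _ ≤ (q : ℝ) ^ (1 / 3 : ℝ) := Real.rpow_le_rpow (by norm_num) h5 (by norm_num)
    _ = 1 / 4 := by norm_num

/-- **families of residues with small Fourier coefficients are spread** -/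
theorem spread_of_flat (δ : ℝ) (hδ : 0 < δ) (hδ1 : δ ≤ 1 / 3) : ∃ q₀ : ℕ, ∀ q : ℕ, q₀ ≤ q → ∀ [Fact q.Prime],
    ∀ (ι : Type) (s : Finset ι) (y : ι → ZMod q), s.Nonempty → Flat q (1 / (q : ℝ) ^ (2 * δ)) s y →
    Spread δ q s (fun i => (y i).val) := by
  obtain ⟨q₀, h⟩ := ev_flat δ hδ hδ1
  refine ⟨q₀, fun q hq _ ι s y hs hf => ?_⟩
  obtain ⟨h64, h1, h2, h3⟩ := h q hq
  have hqp : q.Prime := Fact.out
  have hq0 : (0 : ℝ) < q := by exact_mod_cast hqp.pos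
  have hs0 : (0 : ℝ) < s.card := by exact_mod_cast hs.card_pos
  have hη : 0 ≤ 1 / (q : ℝ) ^ (2 * δ) := by positivity
  have hηb : 1 / (q : ℝ) ^ (2 * δ) * (42 + 3 * Real.log q) ≤ 1 / 4 * (q : ℝ) ^ (-δ) := by
    calc 1 / (q : ℝ) ^ (2 * δ) * (42 + 3 * Real.log q) ≤ 1 / (q : ℝ) ^ (2 * δ) * (1 / 4 * (q : ℝ) ^ δ) :=
          mul_le_mul_of_nonneg_left h1 hη
      _ = 1 / 4 * (q : ℝ) ^ (-δ) := by
          rw [one_div, ← Real.rpow_neg hq0.le]
          have : (q : ℝ) ^ (-(2 * δ)) * (1 / 4 * (q : ℝ) ^ δ) = 1 / 4 * ((q : ℝ) ^ (-(2 * δ)) * (q : ℝ) ^ δ) := by ring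
          rw [this, ← Real.rpow_add hq0]
          congr 2
          ring
  refine ⟨hs, fun i _ => ZMod.val_lt _, ?_, fun m hm hmd hmX r => ?_⟩
  · obtain ⟨b, hb⟩ : ∃ b, b = ⌊(q : ℝ) ^ δ⌋₊ + 1 := ⟨_, rfl⟩
    have hbr : (b : ℝ) ≤ 2 * (q : ℝ) ^ δ := by
      rw [hb]
      push_cast
      have := Nat.floor_le (show 0 ≤ (q : ℝ) ^ δ by positivity)
      linarith
    have hbq : b ≤ q := by
      have h5 : (q : ℝ) ^ δ ≤ 1 / 4 * (q : ℝ) ^ (-δ) * q := by rwa [div_le_iff₀ hq0] at h2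
      have h6 : (q : ℝ) ^ (-δ) ≤ 1 := by
        rw [Real.rpow_neg hq0.le]
        exact inv_le_one_of_one_le₀ h3
      have h7 : (b : ℝ) ≤ q := by nlinarith
      exact_mod_cast h7
    have h4 := interval_count hη hs hf b hbq
    have h5 : ((s.filter (fun i => (((y i).val : ℕ) : ℝ) ≤ (q : ℝ) ^ δ ∨ ¬ Nat.Coprime (y i).val q)).card : ℝ) ≤
        (s.filter (fun i => (y i).val < b)).card := by
      have : (s.filter (fun i => (((y i).val : ℕ) : ℝ) ≤ (q : ℝ) ^ δ ∨ ¬ Nat.Coprime (y i).val q)).card ≤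
          (s.filter (fun i => (y i).val < b)).card := by
        apply card_le_card
        intro i hi
        rw [mem_filter] at hi ⊢
        refine ⟨hi.1, ?_⟩
        rcases hi.2 with h6 | h6
        · rw [hb]
          exact Nat.lt_succ_of_le (Nat.le_floor h6)
        · have h7 : (y i).val = 0 := by
            by_contra h8
            exact h6 ((Nat.coprime_comm.1 ((Nat.Prime.coprime_iff_not_dvd hqp).2 fun h9 =>
              absurd (Nat.le_of_dvd (Nat.pos_of_ne_zero h8) h9) (not_le.2 (ZMod.val_lt _)))))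
          rw [h7, hb]
          omega
      exact_mod_cast this
    refine h5.trans (h4.trans ?_)
    apply mul_le_mul_of_nonneg_right _ hs0.le
    have h6 : (b : ℝ) / q ≤ 2 * (1 / 4 * (q : ℝ) ^ (-δ)) := by
      calc (b : ℝ) / q ≤ (2 * (q : ℝ) ^ δ) / q := div_le_div_of_nonneg_right hbr hq0.le
        _ = 2 * ((q : ℝ) ^ δ / q) := by ring
        _ ≤ _ := mul_le_mul_of_nonneg_left h2 (by norm_num)
    have h7 : 0 ≤ (q : ℝ) ^ (-δ) := by positivity
    linarith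
  · have hm1 : 1 ≤ m := Nat.pos_of_ne_zero hm.ne_zero
    refine (class_count hη hs hf m hm1 r).trans ?_
    apply mul_le_mul_of_nonneg_right _ hs0.le
    have h6 : (m : ℝ) / q ≤ 1 / 4 * (q : ℝ) ^ (-δ) := (div_le_div_of_nonneg_right hmX hq0.le).trans h2
    have h7 : 0 ≤ (q : ℝ) ^ (-δ) := by positivity
    linarith

end Pool.Agent.J6H92.LPr
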